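import Mathlib

set_option autoImplicit false

/-! # Cutting a set of pairs into blocks of second coordinates -/

open Finset

namespace Pool.Agent.L5helper11.RE

theorem blocks (E : Finset (ℕ × ℕ)) (M R : ℕ) (hR : 0 < R) (hE : ∀ e ∈ E, e.1 ≤ M ∧ e.2 ≤ M) :
    ∃ S : Finset ℕ, S ⊆ range (M / R + 1) ∧ E.card ≤ 2 * (S.card * (R * (M + 1))) ∧
      ∀ g ∈ S, E.card ≤ 2 * (M / R + 1) * ((E.filter (fun e => e.2 / R = g ∧ e.1 / R ≠ g)).card + R * R) := by
  classical
  set G := M / R + 1 with hG
  have hblk : ∀ (g b : ℕ), b / R = g → b ∈ Ico (g * R) (g * R + R) := by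
    intro g b hb
    rw [mem_Ico, ← hb]
    have h1 := Nat.div_add_mod b R
    have h2 := Nat.mod_lt b hR
    rw [mul_comm] at h1
    omega
  have hsum : E.card = ∑ g ∈ range G, (E.filter (fun e => e.2 / R = g)).card := by
    apply card_eq_sum_card_fiberwise
    intro e he
    rw [mem_coe, mem_range, hG]
    have := Nat.div_le_div_right (c := R) (hE e he).2
    simp only
    omega
  have heach : ∀ g, (E.filter (fun e => e.2 / R = g)).card ≤ R * (M + 1) := by
    intro g
    have h1 : E.filter (fun e => e.2 / R = g) ⊆ (range (M + 1)) ×ˢ (Ico (g * R) (g * R + R)) := by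
      intro e he
      rw [mem_filter] at he
      rw [mem_product, mem_range]
      have := (hE e he.1).1
      exact ⟨by omega, hblk g _ he.2⟩
    refine (card_le_card h1).trans ?_
    rw [card_product, card_range, Nat.card_Ico]
    have : g * R + R - g * R = R := by omega
    rw [this, mul_comm]
  refine ⟨(range G).filter (fun g => E.card ≤ 2 * G * (E.filter (fun e => e.2 / R = g)).card), filter_subset _ _, ?_, ?_⟩
  · have h1 := sum_filter_add_sum_filter_not (range G) (fun g => E.card ≤ 2 * G * (E.filter (fun e => e.2 / R = g)).card)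
      (fun g => (E.filter (fun e => e.2 / R = g)).card)
    rw [← hsum] at h1
    set S := (range G).filter (fun g => E.card ≤ 2 * G * (E.filter (fun e => e.2 / R = g)).card) with hS
    have h2 : ∑ g ∈ S, (E.filter (fun e => e.2 / R = g)).card ≤ S.card * (R * (M + 1)) := by
      rw [← smul_eq_mul]
      exact sum_le_card_nsmul _ _ _ fun g _ => heach g
    set T := (range G).filter (fun g => ¬ E.card ≤ 2 * G * (E.filter (fun e => e.2 / R = g)).card) with hT
    have h3 : 2 * G * ∑ g ∈ T, (E.filter (fun e => e.2 / R = g)).card ≤ G * E.card := by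
      rw [mul_sum]
      calc ∑ g ∈ T, 2 * G * (E.filter (fun e => e.2 / R = g)).card ≤ T.card * E.card := by
            rw [← smul_eq_mul (a := T.card)]
            apply sum_le_card_nsmul
            intro g hg
            rw [hT, mem_filter] at hg
            exact (not_le.1 hg.2).le
        _ ≤ G * E.card := by
            apply Nat.mul_le_mul_right
            calc T.card ≤ (range G).card := card_filter_le _ _
              _ = G := card_range G
    have hG0 : 0 < G := Nat.succ_pos _
    have h4 : 2 * ∑ g ∈ T, (E.filter (fun e => e.2 / R = g)).card ≤ E.card := by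
      have : G * (2 * ∑ g ∈ T, (E.filter (fun e => e.2 / R = g)).card) ≤ G * E.card := by
        calc _ = 2 * G * ∑ g ∈ T, (E.filter (fun e => e.2 / R = g)).card := by ring
          _ ≤ _ := h3
      exact Nat.le_of_mul_le_mul_left this hG0
    omega
  · intro g hg
    rw [mem_filter] at hg
    refine hg.2.trans ?_
    apply Nat.mul_le_mul_left
    have h1 : E.filter (fun e => e.2 / R = g) ⊆ (E.filter (fun e => e.2 / R = g ∧ e.1 / R ≠ g)) ∪
        (Ico (g * R) (g * R + R)) ×ˢ (Ico (g * R) (g * R + R)) := by
      intro e he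
      rw [mem_filter] at he
      rw [mem_union, mem_filter, mem_product]
      by_cases h : e.1 / R = g
      · exact Or.inr ⟨hblk g _ h, hblk g _ he.2⟩
      · exact Or.inl ⟨he.1, he.2, h⟩
    refine (card_le_card h1).trans ((card_union_le _ _).trans ?_)
    rw [card_product, Nat.card_Ico]
    have : g * R + R - g * R = R := by omega
    rw [this]

/-- numbers with different leading powers differ -/
theorem pow_add_inj {b b' u u' : ℕ} (hu : u < 2 ^ b) (hu' : u' < 2 ^ b') (h : 2 ^ b + u = 2 ^ b' + u') : b = b' := by
  rcases lt_trichotomy b b' with hlt | heq | hlt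
  · have h1 : 2 ^ (b + 1) ≤ 2 ^ b' := Nat.pow_le_pow_right (by norm_num) hlt
    rw [pow_succ] at h1
    omega
  · exact heq
  · have h1 : 2 ^ (b' + 1) ≤ 2 ^ b := Nat.pow_le_pow_right (by norm_num) hlt
    rw [pow_succ] at h1
    omega

end Pool.Agent.L5helper11.RE
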