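import Mathlib
import Pool.Agent.R494.SPL3
import Pool.Agent.L5helper11.RE.Blk

set_option autoImplicit false

/-! # The graph of the pairs `(x + y, z + w)` -/

open Finset Filter

namespace Pool.Agent.L5helper11.RE

open Pool.Agent.R494.SPL (quad mem_quad val2 fibre2)

/-- few quadruples with the same value -/
theorem few (η : ℝ) (hη : 0 < η) : ∀ᶠ n : ℕ in atTop, ∀ P : ℕ, (((quad n).filter (fun v => val2 v = P)).card : ℝ) ≤ (n : ℝ) ^ η := by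
  classical
  obtain ⟨C, hC, hD⟩ := Pool.Agent.H510R2.divisor_bound (min (η / 4) 1) (by positivity)
  set κ : ℝ := min (η / 4) 1 with hκ
  have hκ0 : 0 < κ := by positivity
  have hκ1 : κ ≤ 1 := min_le_right _ _
  have hκ2 : κ ≤ η / 4 := min_le_left _ _
  have e2 : ∀ᶠ n : ℕ in atTop, 16 * (2 * C + 1) ^ 2 ≤ (n : ℝ) ^ (η / 2) :=
    ((tendsto_rpow_atTop (by positivity)).comp tendsto_natCast_atTop_atTop).eventually_ge_atTop _
  filter_upwards [e2, eventually_ge_atTop 3] with n h2 h4 P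
  have hn1 : (1 : ℝ) ≤ n := by exact_mod_cast (by omega : 1 ≤ n)
  have hn0 : (0 : ℝ) < n := by linarith
  have hne : 1 ≤ (n : ℝ) ^ κ := Real.one_le_rpow hn1 (by positivity)
  set D : ℕ := ⌊(2 * C + 1) * (n : ℝ) ^ κ⌋₊ with hDdef
  have hD1 : 1 ≤ D := by
    apply Nat.le_floor
    push_cast
    nlinarith
  have hD' : ∀ k : ℕ, 1 ≤ k → k ≤ 2 * n → k.divisors.card ≤ D := by
    intro k hk hkn
    apply Nat.le_floor
    refine (hD k hk).trans ?_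
    have h5 : (k : ℝ) ≤ 2 * n := by exact_mod_cast hkn
    have h6 : (k : ℝ) ^ κ ≤ 2 * (n : ℝ) ^ κ := by
      calc (k : ℝ) ^ κ ≤ (2 * n : ℝ) ^ κ := by gcongr
        _ = (2 : ℝ) ^ κ * (n : ℝ) ^ κ := Real.mul_rpow (by norm_num) (by positivity)
        _ ≤ (2 : ℝ) ^ (1 : ℝ) * (n : ℝ) ^ κ := by
            apply mul_le_mul_of_nonneg_right _ (by positivity)
            exact Real.rpow_le_rpow_of_exponent_le (by norm_num) hκ1
        _ = _ := by rw [Real.rpow_one]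
    nlinarith
  have h5 := fibre2 n P D hD1 hD'
  have g2 : (D : ℝ) ≤ (2 * C + 1) * (n : ℝ) ^ κ := Nat.floor_le (by positivity)
  calc (((quad n).filter (fun v => val2 v = P)).card : ℝ) ≤ ((16 * D ^ 2 : ℕ) : ℝ) := by exact_mod_cast h5
    _ = 16 * (D : ℝ) ^ 2 := by push_cast; ring
    _ ≤ 16 * ((2 * C + 1) * (n : ℝ) ^ κ) ^ 2 := by gcongr
    _ = (16 * (2 * C + 1) ^ 2) * ((n : ℝ) ^ κ * (n : ℝ) ^ κ) := by ring
    _ ≤ (n : ℝ) ^ (η / 2) * ((n : ℝ) ^ (η / 4) * (n : ℝ) ^ (η / 4)) := by gcongr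
    _ = (n : ℝ) ^ η := by
        rw [← Real.rpow_add hn0, ← Real.rpow_add hn0]
        congr 1
        ring

/-- larger sum first -/
def pr (v : ℕ × ℕ × ℕ × ℕ) : ℕ × ℕ :=
  (max (v.1 + v.2.1) (v.2.2.1 + v.2.2.2), min (v.1 + v.2.1) (v.2.2.1 + v.2.2.2))

/-- the pairs of different sums -/
def edges (n : ℕ) : Finset (ℕ × ℕ) := ((quad n).filter (fun v => v.1 + v.2.1 ≠ v.2.2.1 + v.2.2.2)).image pr

theorem pr_val {v : ℕ × ℕ × ℕ × ℕ} : val2 v = 2 ^ (pr v).1 + 2 ^ (pr v).2 + 1 := by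
  obtain ⟨x, y, z, w⟩ := v
  unfold val2 pr
  simp only
  rcases le_total (x + y) (z + w) with h | h
  · rw [max_eq_right h, min_eq_left h]
    omega
  · rw [max_eq_left h, min_eq_right h]

theorem mem_edges {n : ℕ} {e : ℕ × ℕ} (he : e ∈ edges n) : ∃ v ∈ quad n, pr v = e := by
  unfold edges at he
  rw [mem_image] at he
  obtain ⟨v, hv, he⟩ := he
  exact ⟨v, (mem_filter.1 hv).1, he⟩

theorem pr_le {n : ℕ} {v : ℕ × ℕ × ℕ × ℕ} (hv : v ∈ quad n) : (pr v).1 ≤ Nat.sqrt (2 * n) ∧ n ≤ 2 * (pr v).1 ^ 2 := by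
  obtain ⟨x, y, z, w⟩ := v
  rw [mem_quad] at hv
  simp only at hv
  unfold pr
  simp only
  have h1 : x + y ≤ max (x + y) (z + w) := le_max_left _ _
  have h2 : z + w ≤ max (x + y) (z + w) := le_max_right _ _
  refine ⟨?_, ?_⟩
  · rw [Nat.le_sqrt']
    rcases le_total (x + y) (z + w) with h | h
    · rw [max_eq_right h, hv]
      have : ((z : ℤ) + w) ^ 2 ≤ 2 * ((x : ℤ) ^ 2 + y ^ 2 + z ^ 2 + w ^ 2) := by
        nlinarith [sq_nonneg ((z : ℤ) - w), sq_nonneg (x : ℤ), sq_nonneg (y : ℤ)]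
      exact_mod_cast this
    · rw [max_eq_left h, hv]
      have : ((x : ℤ) + y) ^ 2 ≤ 2 * ((x : ℤ) ^ 2 + y ^ 2 + z ^ 2 + w ^ 2) := by
        nlinarith [sq_nonneg ((x : ℤ) - y), sq_nonneg (z : ℤ), sq_nonneg (w : ℤ)]
      exact_mod_cast this
  · set m := max (x + y) (z + w)
    rw [hv]
    have h3 : x ^ 2 + y ^ 2 ≤ (x + y) ^ 2 := by nlinarith [Nat.zero_le (x * y)]
    have h4 : z ^ 2 + w ^ 2 ≤ (z + w) ^ 2 := by nlinarith [Nat.zero_le (z * w)]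
    have h5 : (x + y) ^ 2 ≤ m ^ 2 := Nat.pow_le_pow_left h1 2
    have h6 : (z + w) ^ 2 ≤ m ^ 2 := Nat.pow_le_pow_left h2 2
    omega

theorem edge_lt {n : ℕ} {e : ℕ × ℕ} (he : e ∈ edges n) : e.2 < e.1 ∧ e.1 ≤ Nat.sqrt (2 * n) ∧ n ≤ 2 * e.1 ^ 2 := by
  have he' := he
  unfold edges at he
  rw [mem_image] at he
  obtain ⟨v, hv, rfl⟩ := he
  rw [mem_filter] at hv
  refine ⟨?_, pr_le hv.1⟩
  obtain ⟨x, y, z, w⟩ := v
  have h := hv.2
  simp only at h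
  unfold pr
  simp only
  rcases Nat.lt_or_gt_of_ne h with h1 | h1
  · rw [max_eq_right h1.le, min_eq_left h1.le]
    exact h1
  · rw [max_eq_left h1.le, min_eq_right h1.le]
    exact h1

/-- many edges -/
theorem edges_low (η : ℝ) (hη : 0 < η) (hη1 : η < 1 / 4) : ∀ᶠ n : ℕ in atTop, Odd n → (n : ℝ) ^ (1 - η) ≤ ((edges n).card : ℝ) := by
  classical
  obtain ⟨δ, hδ, n0, hS⟩ := Pool.Agent.TH696.FA.main_count (η / 4) (by positivity)
  have e1 : ∀ᶠ n : ℕ in atTop, 8 ≤ (n : ℝ) ^ (η / 2) :=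
    ((tendsto_rpow_atTop (by positivity)).comp tendsto_natCast_atTop_atTop).eventually_ge_atTop _
  filter_upwards [few (η / 4) (by positivity), e1, eventually_ge_atTop n0, eventually_ge_atTop 4] with n hf h2 h3 h4 hn
  have hn1 : (1 : ℝ) ≤ n := by exact_mod_cast (by omega : 1 ≤ n)
  have hn0 : (0 : ℝ) < n := by linarith
  obtain ⟨S, hS1, hS2⟩ := hS n 1 h3 hn one_pos (by rw [Nat.cast_one]; exact Real.one_le_rpow hn1 hδ.le)
  have hsub : S ⊆ quad n := by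
    rintro ⟨x, y, z, w⟩ hX
    exact mem_quad.2 (hS2 x y z w hX).1
  have h5 : (n : ℝ) ^ (1 - η / 4) ≤ ((quad n).card : ℝ) := by
    refine hS1.trans ?_
    exact_mod_cast card_le_card hsub
  -- fibres
  have hfib : ∀ e : ℕ × ℕ, (((quad n).filter (fun v => pr v = e)).card : ℝ) ≤ (n : ℝ) ^ (η / 4) := by
    intro e
    refine le_trans ?_ (hf (2 ^ e.1 + 2 ^ e.2 + 1))
    norm_cast
    apply card_le_card
    intro v hv
    rw [mem_filter] at hv ⊢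
    refine ⟨hv.1, ?_⟩
    rw [pr_val, hv.2]
  set M := Nat.sqrt (2 * n) with hM
  have himg : (quad n).image pr ⊆ edges n ∪ (range (M + 1)).image (fun a => (a, a)) := by
    intro e he
    rw [mem_image] at he
    obtain ⟨v, hv, rfl⟩ := he
    rw [mem_union]
    by_cases h : v.1 + v.2.1 = v.2.2.1 + v.2.2.2
    · right
      rw [mem_image]
      refine ⟨(pr v).1, ?_, ?_⟩
      · rw [mem_range]
        have := (pr_le hv).1
        omega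
      · unfold pr
        simp only
        rw [h, max_self, min_self]
    · left
      exact mem_image_of_mem _ (mem_filter.2 ⟨hv, h⟩)
  have h6 : ((quad n).card : ℝ) ≤ (((quad n).image pr).card : ℝ) * (n : ℝ) ^ (η / 4) := by
    rw [card_eq_sum_card_image pr (quad n)]
    push_cast
    rw [← nsmul_eq_mul]
    exact sum_le_card_nsmul _ _ _ fun e _ => hfib e
  have h7 : (((quad n).image pr).card : ℝ) ≤ (edges n).card + (M + 1) := by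
    have := (card_le_card himg).trans (card_union_le _ _)
    have h8 := card_image_le (s := range (M + 1)) (f := fun a => (a, a))
    rw [card_range] at h8
    have h9 : ((quad n).image pr).card ≤ (edges n).card + (M + 1) := by omega
    exact_mod_cast h9
  have h8 : (M : ℝ) + 1 ≤ 3 * (n : ℝ) ^ (1 / 2 : ℝ) := by
    have g1 : (M : ℝ) ^ 2 ≤ 2 * n := by
      have : M ^ 2 ≤ 2 * n := Nat.sqrt_le' _
      exact_mod_cast this
    have g2 : ((n : ℝ) ^ (1 / 2 : ℝ)) ^ 2 = n := by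
      rw [← Real.rpow_natCast, ← Real.rpow_mul hn0.le]; norm_num
    have g3 : 1 ≤ (n : ℝ) ^ (1 / 2 : ℝ) := Real.one_le_rpow hn1 (by norm_num)
    have g4 : (M : ℝ) ≤ 2 * (n : ℝ) ^ (1 / 2 : ℝ) := by
      apply le_of_sq_le_sq _ (by positivity)
      nlinarith
    linarith
  have h9 : (n : ℝ) ^ (1 - η / 4) ≤ ((edges n).card + 3 * (n : ℝ) ^ (1 / 2 : ℝ)) * (n : ℝ) ^ (η / 4) := by
    calc _ ≤ (((quad n).image pr).card : ℝ) * (n : ℝ) ^ (η / 4) := h5.trans h6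
      _ ≤ _ := by gcongr; linarith
  have h10 : (n : ℝ) ^ (1 - η / 4) = (n : ℝ) ^ (1 - η) * (n : ℝ) ^ (η / 2) * (n : ℝ) ^ (η / 4) := by
    rw [← Real.rpow_add hn0, ← Real.rpow_add hn0]
    congr 1
    ring
  rw [h10] at h9
  have h11 := le_of_mul_le_mul_right h9 (by positivity)
  have h12 : (n : ℝ) ^ (1 / 2 : ℝ) ≤ (n : ℝ) ^ (1 - η) := by
    apply Real.rpow_le_rpow_of_exponent_le hn1
    linarith
  have h13 : (n : ℝ) ^ (1 - η) * 8 ≤ (n : ℝ) ^ (1 - η) * (n : ℝ) ^ (η / 2) := by gcongr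
  have h14 : 0 < (n : ℝ) ^ (1 - η) := by positivity
  linarith

/-- many good blocks -/
theorem blocks_low (ε : ℝ) (hε : 0 < ε) (hε1 : ε ≤ 1 / 10) : ∃ σ : ℝ, 0 < σ ∧ ∀ᶠ n : ℕ in atTop, Odd n →
    ∃ (R : ℕ) (S : Finset ℕ), 0 < R ∧ 2 * R ^ 8 ≤ n ∧ (n : ℝ) ^ (1 / 2 - ε) ≤ S.card ∧ S.card ≤ n ∧
      ∀ g ∈ S, (n : ℝ) ^ σ * Nat.sqrt (2 * n) ≤ (((edges n).filter (fun e => e.2 / R = g ∧ e.1 / R ≠ g)).card : ℝ) := by
  classical
  refine ⟨ε / 8, by positivity, ?_⟩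
  have e1 : ∀ᶠ n : ℕ in atTop, 100 ≤ (n : ℝ) ^ (ε / 8) :=
    ((tendsto_rpow_atTop (by positivity)).comp tendsto_natCast_atTop_atTop).eventually_ge_atTop _
  filter_upwards [edges_low (ε / 8) (by positivity) (by linarith), e1, eventually_ge_atTop 4] with n hE h2 h4 hn
  have hn1 : (1 : ℝ) ≤ n := by exact_mod_cast (by omega : 1 ≤ n)
  have hn0 : (0 : ℝ) < n := by linarith
  have hE := hE hn
  set R : ℕ := ⌊(n : ℝ) ^ (ε / 2)⌋₊ with hR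
  set M := Nat.sqrt (2 * n) with hM
  have hmono : ∀ {s t : ℝ}, s ≤ t → (n : ℝ) ^ s ≤ (n : ℝ) ^ t := fun h => Real.rpow_le_rpow_of_exponent_le hn1 h
  have h100 : 100 ≤ (n : ℝ) ^ (ε / 2) := h2.trans (hmono (by linarith))
  have hR1 : (R : ℝ) ≤ (n : ℝ) ^ (ε / 2) := Nat.floor_le (by positivity)
  have hR2 : (n : ℝ) ^ (ε / 2) ≤ 2 * R := by
    have := Nat.lt_floor_add_one ((n : ℝ) ^ (ε / 2))
    rw [← hR] at this
    linarith
  have hR0 : 0 < R := by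
    have : (0 : ℝ) < R := by linarith
    exact_mod_cast this
  have hM1 : (M : ℝ) + 1 ≤ 3 * (n : ℝ) ^ (1 / 2 : ℝ) ∧ (M : ℝ) ≤ 2 * (n : ℝ) ^ (1 / 2 : ℝ) := by
    have g1 : (M : ℝ) ^ 2 ≤ 2 * n := by
      have : M ^ 2 ≤ 2 * n := Nat.sqrt_le' _
      exact_mod_cast this
    have g2 : ((n : ℝ) ^ (1 / 2 : ℝ)) ^ 2 = n := by
      rw [← Real.rpow_natCast, ← Real.rpow_mul hn0.le]; norm_num
    have g3 : 1 ≤ (n : ℝ) ^ (1 / 2 : ℝ) := Real.one_le_rpow hn1 (by norm_num)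
    have g4 : (M : ℝ) ≤ 2 * (n : ℝ) ^ (1 / 2 : ℝ) := by
      apply le_of_sq_le_sq _ (by positivity)
      nlinarith
    exact ⟨by linarith, g4⟩
  have hRn : (R : ℝ) ≤ (n : ℝ) ^ (1 / 2 : ℝ) := hR1.trans (hmono (by linarith))
  obtain ⟨S, hS1, hS2, hS3⟩ := blocks (edges n) M R hR0 (by
    intro e he
    obtain ⟨g1, g2, g3⟩ := edge_lt he
    exact ⟨g2, g1.le.trans g2⟩)
  refine ⟨R, S, hR0, ?_, ?_, ?_, ?_⟩
  · have g1 : (R : ℝ) ^ 8 ≤ (n : ℝ) ^ (1 / 2 : ℝ) := by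
      calc (R : ℝ) ^ 8 ≤ ((n : ℝ) ^ (ε / 2)) ^ 8 := by gcongr
        _ = (n : ℝ) ^ (4 * ε) := by
            rw [← Real.rpow_natCast, ← Real.rpow_mul hn0.le]
            congr 1
            push_cast
            ring
        _ ≤ _ := hmono (by linarith)
    have g2 : 2 ≤ (n : ℝ) ^ (1 / 2 : ℝ) := (by linarith [h2.trans (hmono (show ε / 8 ≤ 1 / 2 by linarith))])
    have g3 : (n : ℝ) ^ (1 / 2 : ℝ) * (n : ℝ) ^ (1 / 2 : ℝ) = n := by
      rw [← Real.rpow_add hn0]; norm_num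
    have g4 : (2 : ℝ) * (R : ℝ) ^ 8 ≤ n := by
      calc (2 : ℝ) * (R : ℝ) ^ 8 ≤ (n : ℝ) ^ (1 / 2 : ℝ) * (n : ℝ) ^ (1 / 2 : ℝ) := by gcongr
        _ = n := g3
    exact_mod_cast g4
  · have g1 : ((edges n).card : ℝ) ≤ 2 * (S.card * (R * (M + 1))) := by exact_mod_cast hS2
    have g2 : (n : ℝ) ^ (1 - ε / 8) ≤ 2 * (S.card * ((n : ℝ) ^ (ε / 2) * (3 * (n : ℝ) ^ (1 / 2 : ℝ)))) := by
      refine hE.trans (g1.trans ?_)
      gcongr
      exact hM1.1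
    have g3 : (n : ℝ) ^ (1 - ε / 8) = (n : ℝ) ^ (1 / 2 - ε) * (n : ℝ) ^ (ε / 8) * (n : ℝ) ^ (ε / 4) * ((n : ℝ) ^ (ε / 2) * (n : ℝ) ^ (1 / 2 : ℝ)) := by
      rw [← Real.rpow_add hn0, ← Real.rpow_add hn0, ← Real.rpow_add hn0, ← Real.rpow_add hn0]
      congr 1
      ring
    have g4 : 1 ≤ (n : ℝ) ^ (ε / 4) := Real.one_le_rpow hn1 (by positivity)
    have g5 : (n : ℝ) ^ (1 / 2 - ε) * 100 * 1 ≤ (n : ℝ) ^ (1 / 2 - ε) * (n : ℝ) ^ (ε / 8) * (n : ℝ) ^ (ε / 4) := by gcongr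
    have g6 : (n : ℝ) ^ (1 / 2 - ε) * (n : ℝ) ^ (ε / 8) * (n : ℝ) ^ (ε / 4) ≤ 6 * S.card := by
      have : (n : ℝ) ^ (1 / 2 - ε) * (n : ℝ) ^ (ε / 8) * (n : ℝ) ^ (ε / 4) * ((n : ℝ) ^ (ε / 2) * (n : ℝ) ^ (1 / 2 : ℝ)) ≤
          6 * S.card * ((n : ℝ) ^ (ε / 2) * (n : ℝ) ^ (1 / 2 : ℝ)) := by
        rw [← g3]
        refine g2.trans (le_of_eq ?_)
        ring
      exact le_of_mul_le_mul_right this (by positivity)
    have g7 : 0 < (n : ℝ) ^ (1 / 2 - ε) := by positivity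
    linarith
  · have g1 := card_le_card hS1
    rw [card_range] at g1
    have g2 : M / R ≤ M := Nat.div_le_self _ _
    have g3 : M < n := by
      rw [hM, Nat.sqrt_lt']
      nlinarith
    omega
  · intro g hg
    have g1 := hS3 g hg
    set c := ((edges n).filter (fun e => e.2 / R = g ∧ e.1 / R ≠ g)).card with hc
    have g2 : ((edges n).card : ℝ) ≤ 2 * ((M / R : ℕ) + 1) * (c + R * R) := by exact_mod_cast g1
    have g3 : ((M / R : ℕ) : ℝ) + 1 ≤ 3 * (n : ℝ) ^ (1 / 2 : ℝ) * (2 / (n : ℝ) ^ (ε / 2)) := by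
      have k1 : ((M / R : ℕ) : ℝ) ≤ M / R := Nat.cast_div_le
      have k2 : (0 : ℝ) < R := by exact_mod_cast hR0
      have k3 : (M : ℝ) / R + 1 ≤ 3 * (n : ℝ) ^ (1 / 2 : ℝ) / R := by
        rw [div_add_one k2.ne', div_le_div_iff_of_pos_right k2]
        linarith [hM1.2]
      have k4 : 1 / (R : ℝ) ≤ 2 / (n : ℝ) ^ (ε / 2) := by
        rw [div_le_div_iff₀ k2 (by positivity)]
        linarith
      calc ((M / R : ℕ) : ℝ) + 1 ≤ 3 * (n : ℝ) ^ (1 / 2 : ℝ) / R := by linarith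
        _ = 3 * (n : ℝ) ^ (1 / 2 : ℝ) * (1 / R) := by ring
        _ ≤ _ := by gcongr
    have g4 : (n : ℝ) ^ (1 - ε / 8) ≤ 2 * (3 * (n : ℝ) ^ (1 / 2 : ℝ) * (2 / (n : ℝ) ^ (ε / 2))) * (c + R * R) := by
      refine hE.trans (g2.trans ?_)
      gcongr
    have g5 : (n : ℝ) ^ (1 - ε / 8) = (n : ℝ) ^ (ε / 8) * ((n : ℝ) ^ (ε / 8) * (n : ℝ) ^ (1 / 2 : ℝ)) * (n : ℝ) ^ (ε / 8) * ((n : ℝ) ^ (1 / 2 : ℝ) / (n : ℝ) ^ (ε / 2)) := by
      rw [← Real.rpow_sub hn0, ← Real.rpow_add hn0, ← Real.rpow_add hn0, ← Real.rpow_add hn0, ← Real.rpow_add hn0]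
      congr 1
      ring
    have g6 : (n : ℝ) ^ (ε / 8) * ((n : ℝ) ^ (ε / 8) * (n : ℝ) ^ (1 / 2 : ℝ)) * (n : ℝ) ^ (ε / 8) ≤ 12 * (c + R * R) := by
      have : (n : ℝ) ^ (ε / 8) * ((n : ℝ) ^ (ε / 8) * (n : ℝ) ^ (1 / 2 : ℝ)) * (n : ℝ) ^ (ε / 8) * ((n : ℝ) ^ (1 / 2 : ℝ) / (n : ℝ) ^ (ε / 2)) ≤
          12 * (c + R * R) * ((n : ℝ) ^ (1 / 2 : ℝ) / (n : ℝ) ^ (ε / 2)) := by
        rw [← g5]
        refine g4.trans (le_of_eq ?_)
        ring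
      exact le_of_mul_le_mul_right this (by positivity)
    have g7 : (R : ℝ) * R ≤ (n : ℝ) ^ (ε / 8) * (n : ℝ) ^ (1 / 2 : ℝ) := by
      calc (R : ℝ) * R ≤ (n : ℝ) ^ (ε / 2) * (n : ℝ) ^ (ε / 2) := by gcongr
        _ = (n : ℝ) ^ ε := by rw [← Real.rpow_add hn0]; congr 1; ring
        _ ≤ (n : ℝ) ^ (ε / 8 + 1 / 2) := hmono (by linarith)
        _ = _ := Real.rpow_add hn0 _ _
    have g8 : 100 * ((n : ℝ) ^ (ε / 8) * (n : ℝ) ^ (1 / 2 : ℝ)) * 100 ≤ (n : ℝ) ^ (ε / 8) * ((n : ℝ) ^ (ε / 8) * (n : ℝ) ^ (1 / 2 : ℝ)) * (n : ℝ) ^ (ε / 8) := by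
      gcongr
    have g9 : (n : ℝ) ^ (ε / 8) * M ≤ 2 * ((n : ℝ) ^ (ε / 8) * (n : ℝ) ^ (1 / 2 : ℝ)) := by
      calc (n : ℝ) ^ (ε / 8) * M ≤ (n : ℝ) ^ (ε / 8) * (2 * (n : ℝ) ^ (1 / 2 : ℝ)) := by
            gcongr
            exact hM1.2
        _ = _ := by ring
    have g10 : 0 < (n : ℝ) ^ (ε / 8) * (n : ℝ) ^ (1 / 2 : ℝ) := by positivity
    linarith

end Pool.Agent.L5helper11.RE
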