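import Mathlib

set_option autoImplicit false

/-! # Independent uniform variables: conditional products of small probabilities -/

open MeasureTheory ProbabilityTheory Finset
open scoped ENNReal

namespace Pool.Agent.L5helper11.RE

variable {Ω : Type} [MeasurableSpace Ω]

theorem fin_le {μ : Measure Ω} (H : ℕ) (X : Ω → ℕ)
    (hu : ∀ k, k ≤ H → μ (X ⁻¹' {k}) = 1 / ((H : ℝ≥0∞) + 1)) (F : Finset ℕ) (hF : ∀ k ∈ F, k ≤ H) :
    μ (X ⁻¹' (F : Set ℕ)) ≤ (F.card : ℝ≥0∞) / ((H : ℝ≥0∞) + 1) := by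
  have h1 : X ⁻¹' (F : Set ℕ) = ⋃ k ∈ F, X ⁻¹' {k} := by
    ext ω
    simp
  rw [h1]
  refine (measure_biUnion_finset_le F _).trans ?_
  rw [sum_congr rfl (fun k hk => hu k (hF k hk)), sum_const, nsmul_eq_mul, mul_one_div]

theorem null_big {μ : Measure Ω} [IsProbabilityMeasure μ] (H : ℕ) (X : Ω → ℕ) (hX : Measurable X)
    (hu : ∀ k, k ≤ H → μ (X ⁻¹' {k}) = 1 / ((H : ℝ≥0∞) + 1)) : μ {ω | H < X ω} = 0 := by
  have h1 : {ω | H < X ω} = (X ⁻¹' ((range (H + 1) : Finset ℕ) : Set ℕ))ᶜ := by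
    ext ω
    simp only [Set.mem_ofPred_eq, Set.mem_compl_iff, Set.mem_preimage, coe_range, Set.mem_Iio]
    omega
  have h2 : MeasurableSet (X ⁻¹' ((range (H + 1) : Finset ℕ) : Set ℕ)) := hX (Finset.measurableSet _)
  rw [h1, prob_compl_eq_zero_iff h2]
  have h3 : X ⁻¹' ((range (H + 1) : Finset ℕ) : Set ℕ) = ⋃ k ∈ range (H + 1), X ⁻¹' {k} := by
    ext ω
    simp
  rw [h3, measure_biUnion_finset]
  · rw [sum_congr rfl (fun k hk => hu k (by rw [mem_range] at hk; omega)), sum_const, card_range, nsmul_eq_mul,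
      mul_one_div]
    push_cast
    apply ENNReal.div_self
    · simp
    · simp
  · intro i _ j _ hij
    apply Disjoint.preimage
    simpa using hij
  · intro k _
    exact hX (measurableSet_singleton k)

theorem prod_bound {μ : Measure Ω} [IsProbabilityMeasure μ] (H : ℕ → ℕ) (r : ℕ → Ω → ℕ)
    (hm : ∀ j, Measurable (r j)) (hind : iIndepFun r μ)
    (hu : ∀ j k, k ≤ H j → μ (r j ⁻¹' {k}) = 1 / ((H j : ℝ≥0∞) + 1))
    (A B : Finset ℕ) (hAB : Disjoint A B) (G : ℕ → (ℕ → ℕ) → ℕ → Prop)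
    [∀ a v, DecidablePred (G a v)]
    (hG : ∀ a ∈ A, ∀ v v' : ℕ → ℕ, (∀ b ∈ B, v b = v' b) → ∀ k, G a v k → G a v' k)
    (p : ℕ → ℝ≥0∞)
    (hp : ∀ a ∈ A, ∀ v : ℕ → ℕ, (∀ b ∈ B, v b ≤ H b) →
      (((range (H a + 1)).filter (fun k => G a v k)).card : ℝ≥0∞) ≤ ((H a : ℝ≥0∞) + 1) * p a) :
    μ {ω | ∀ a ∈ A, G a (fun j => r j ω) (r a ω)} ≤ ∏ a ∈ A, p a := by
  classical
  set V := B.pi (fun b => range (H b + 1)) with hV
  set ext : ((b : ℕ) → b ∈ B → ℕ) → ℕ → ℕ := fun v j => if h : j ∈ B then v j h else 0 with hext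
  set S : ((b : ℕ) → b ∈ B → ℕ) → ℕ → Finset ℕ :=
    fun v j => if j ∈ B then {ext v j} else (range (H j + 1)).filter (fun k => G j (ext v) k) with hS
  set N : Set Ω := ⋃ j ∈ A ∪ B, {ω | H j < r j ω} with hN
  have hN0 : μ N = 0 := by
    rw [hN]
    refine (measure_biUnion_null_iff (Set.Finite.countable (Finset.finite_toSet _))).2 ?_
    intro j _
    exact null_big (H j) (r j) (hm j) (hu j)
  have hsub : {ω | ∀ a ∈ A, G a (fun j => r j ω) (r a ω)} ⊆
      (⋃ v ∈ V, ⋂ j ∈ A ∪ B, r j ⁻¹' (S v j : Set ℕ)) ∪ N := by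
    intro ω hω
    by_cases hωN : ω ∈ N
    · exact Or.inr hωN
    left
    have hle : ∀ j ∈ A ∪ B, r j ω ≤ H j := by
      intro j hj
      by_contra hcon
      push Not at hcon
      exact hωN (Set.mem_biUnion hj hcon)
    rw [Set.mem_iUnion₂]
    refine ⟨fun b _ => r b ω, ?_, ?_⟩
    · rw [hV, mem_pi]
      intro b hb
      rw [mem_range]
      have := hle b (mem_union_right _ hb)
      omega
    · rw [Set.mem_iInter₂]
      intro j hj
      rw [Set.mem_preimage, mem_coe]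
      by_cases hjB : j ∈ B
      · simp only [hS, hext, if_pos hjB, dif_pos hjB, mem_singleton]
      · have hjA : j ∈ A := by
          rcases mem_union.1 hj with h | h
          · exact h
          · exact absurd h hjB
        simp only [hS, if_neg hjB, mem_filter, mem_range]
        refine ⟨?_, ?_⟩
        · have := hle j hj
          omega
        · apply hG j hjA (fun j => r j ω) _ _ _ (hω j hjA)
          intro b hb
          simp only [hext, dif_pos hb]
  refine (measure_mono hsub).trans ?_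
  refine (measure_union_le _ _).trans ?_
  rw [hN0, add_zero]
  refine (measure_biUnion_finset_le V _).trans ?_
  have hv : ∀ v ∈ V, μ (⋂ j ∈ A ∪ B, r j ⁻¹' (S v j : Set ℕ)) ≤ (∏ a ∈ A, p a) * ∏ b ∈ B, (1 / ((H b : ℝ≥0∞) + 1)) := by
    intro v hv
    rw [hind.measure_inter_preimage_eq_mul (A ∪ B) (fun j _ => Finset.measurableSet _)]
    rw [prod_union hAB]
    apply mul_le_mul'
    · apply prod_le_prod'
      intro a ha
      have haB : a ∉ B := Finset.disjoint_left.1 hAB ha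
      simp only [hS, if_neg haB]
      refine (fin_le (H a) (r a) (hu a) _ ?_).trans ?_
      · intro k hk
        rw [mem_filter, mem_range] at hk
        omega
      · apply ENNReal.div_le_of_le_mul'
        apply hp a ha
        intro b hb
        simp only [hext, dif_pos hb]
        rw [hV, mem_pi] at hv
        have := hv b hb
        rw [mem_range] at this
        omega
    · apply prod_le_prod'
      intro b hb
      simp only [hS, if_pos hb]
      rw [coe_singleton]
      apply le_of_eq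
      apply hu
      simp only [hext, dif_pos hb]
      rw [hV, mem_pi] at hv
      have := hv b hb
      rw [mem_range] at this
      omega
  refine (sum_le_sum hv).trans ?_
  rw [sum_const, nsmul_eq_mul]
  have hc : (V.card : ℝ≥0∞) = ∏ b ∈ B, ((H b : ℝ≥0∞) + 1) := by
    rw [hV, card_pi]
    push_cast
    simp
  have hc2 : (∏ b ∈ B, ((H b : ℝ≥0∞) + 1)) * ∏ b ∈ B, (1 / ((H b : ℝ≥0∞) + 1)) = 1 := by
    rw [← prod_mul_distrib]
    apply prod_eq_one
    intro b _
    rw [mul_one_div]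
    apply ENNReal.div_self
    · simp
    · simp
  calc (V.card : ℝ≥0∞) * ((∏ a ∈ A, p a) * ∏ b ∈ B, (1 / ((H b : ℝ≥0∞) + 1)))
      = (∏ a ∈ A, p a) * ((∏ b ∈ B, ((H b : ℝ≥0∞) + 1)) * ∏ b ∈ B, (1 / ((H b : ℝ≥0∞) + 1))) := by rw [hc]; ring
    _ = ∏ a ∈ A, p a := by rw [hc2, mul_one]
    _ ≤ _ := le_rfl

end Pool.Agent.L5helper11.RE
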