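import Mathlib
import Pool.Agent.L5helper11.RE.Prob

set_option autoImplicit false

/-! # Independent uniform variables: integrals of products of conditional factors -/

open MeasureTheory ProbabilityTheory Finset
open scoped ENNReal

namespace Pool.Agent.L5helper11.RE

variable {Ω : Type} [MeasurableSpace Ω]

theorem ind_int {μ : Measure Ω} (X : Ω → ℕ) (hX : Measurable X) (m : ℕ) :
    ∫⁻ ω, (if X ω = m then (1 : ℝ≥0∞) else 0) ∂μ = μ (X ⁻¹' {m}) := by
  have h1 : (fun ω => if X ω = m then (1 : ℝ≥0∞) else 0) = (X ⁻¹' {m}).indicator 1 := by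
    funext ω
    by_cases h : X ω = m
    · rw [if_pos h, Set.indicator_of_mem (show ω ∈ X ⁻¹' {m} from h)]
      rfl
    · rw [if_neg h, Set.indicator_of_notMem (show ω ∉ X ⁻¹' {m} from h)]
  rw [h1, lintegral_indicator_one (hX (measurableSet_singleton m))]

theorem fac_int {μ : Measure Ω} (H : ℕ) (X : Ω → ℕ) (hX : Measurable X)
    (hu : ∀ k, k ≤ H → μ (X ⁻¹' {k}) = 1 / ((H : ℝ≥0∞) + 1)) (f : ℕ → ℝ≥0∞) (q : ℝ≥0∞)
    (hq : ∑ k ∈ range (H + 1), f k ≤ ((H : ℝ≥0∞) + 1) * q) :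
    ∫⁻ ω, (if X ω ≤ H then f (X ω) else 0) ∂μ ≤ q := by
  have h1 : (fun ω => if X ω ≤ H then f (X ω) else 0) =
      fun ω => ∑ k ∈ range (H + 1), f k * (if X ω = k then (1 : ℝ≥0∞) else 0) := by
    funext ω
    by_cases h : X ω ≤ H
    · rw [if_pos h, sum_eq_single (X ω)]
      · simp
      · intro k _ hk
        rw [if_neg (Ne.symm hk), mul_zero]
      · intro hk
        rw [mem_range] at hk
        omega
    · rw [if_neg h]
      symm
      apply sum_eq_zero
      intro k hk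
      rw [mem_range] at hk
      rw [if_neg (by omega), mul_zero]
  have hmeas : ∀ k, Measurable (fun ω => if X ω = k then (1 : ℝ≥0∞) else 0) := by
    intro k
    apply Measurable.ite (hX (measurableSet_singleton k)) measurable_const measurable_const
  rw [h1, lintegral_finsetSum]
  · have h2 : ∀ k ∈ range (H + 1), ∫⁻ ω, f k * (if X ω = k then (1 : ℝ≥0∞) else 0) ∂μ = f k * (1 / ((H : ℝ≥0∞) + 1)) := by
      intro k hk
      rw [mem_range] at hk
      rw [lintegral_const_mul _ (hmeas k), ind_int X hX k, hu k (by omega)]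
    rw [sum_congr rfl h2, ← sum_mul, mul_one_div]
    exact ENNReal.div_le_of_le_mul' hq
  · intro k _
    exact (hmeas k).const_mul _

theorem mgf_bound {μ : Measure Ω} [IsProbabilityMeasure μ] (H : ℕ → ℕ) (r : ℕ → Ω → ℕ)
    (hm : ∀ j, Measurable (r j)) (hind : iIndepFun r μ)
    (hu : ∀ j k, k ≤ H j → μ (r j ⁻¹' {k}) = 1 / ((H j : ℝ≥0∞) + 1))
    (A B : Finset ℕ) (hAB : Disjoint A B) (φ : ℕ → (ℕ → ℕ) → ℕ → ℝ≥0∞)
    (hφ : ∀ a ∈ A, ∀ v v' : ℕ → ℕ, (∀ b ∈ B, v b = v' b) → ∀ k, φ a v k = φ a v' k)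
    (p : ℕ → ℝ≥0∞)
    (hp : ∀ a ∈ A, ∀ v : ℕ → ℕ, (∀ b ∈ B, v b ≤ H b) →
      ∑ k ∈ range (H a + 1), φ a v k ≤ ((H a : ℝ≥0∞) + 1) * p a) :
    ∫⁻ ω, ∏ a ∈ A, φ a (fun j => r j ω) (r a ω) ∂μ ≤ ∏ a ∈ A, p a := by
  classical
  set V := B.pi (fun b => range (H b + 1)) with hV
  set ext : ((b : ℕ) → b ∈ B → ℕ) → ℕ → ℕ := fun v j => if h : j ∈ B then v j h else 0 with hext
  set ψ : ((b : ℕ) → b ∈ B → ℕ) → ℕ → ℕ → ℝ≥0∞ := fun v j k =>
    if j ∈ B then (if k = ext v j then 1 else 0) else (if k ≤ H j then φ j (ext v) k else 0) with hψ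
  have hae : ∀ᵐ ω ∂μ, ∀ j, r j ω ≤ H j := by
    rw [ae_all_iff]
    intro j
    have := null_big (H j) (r j) (hm j) (hu j)
    rw [ae_iff]
    have h2 : {ω | ¬ r j ω ≤ H j} = {ω | H j < r j ω} := by
      ext ω
      simp
    rw [h2]
    exact this
  have hle : ∀ᵐ ω ∂μ, ∏ a ∈ A, φ a (fun j => r j ω) (r a ω) ≤ ∑ v ∈ V, ∏ j ∈ A ∪ B, ψ v j (r j ω) := by
    filter_upwards [hae] with ω hω
    have hv : (fun b (_ : b ∈ B) => r b ω) ∈ V := by
      rw [hV, mem_pi]
      intro b hb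
      rw [mem_range]
      have := hω b
      omega
    refine le_trans ?_ (single_le_sum (f := fun v => ∏ j ∈ A ∪ B, ψ v j (r j ω)) (fun _ _ => bot_le) hv)
    rw [prod_union hAB]
    have h1 : ∏ b ∈ B, ψ (fun b (_ : b ∈ B) => r b ω) b (r b ω) = 1 := by
      apply prod_eq_one
      intro b hb
      simp only [hψ, hext, if_pos hb, dif_pos hb, if_true]
    rw [h1, mul_one]
    apply le_of_eq
    apply prod_congr rfl
    intro a ha
    have haB : a ∉ B := Finset.disjoint_left.1 hAB ha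
    simp only [hψ, if_neg haB]
    rw [if_pos (hω a)]
    apply hφ a ha
    intro b hb
    simp only [hext, dif_pos hb]
  refine (lintegral_mono_ae hle).trans ?_
  have hmψ : ∀ v j, Measurable (fun ω => ψ v j (r j ω)) := by
    intro v j
    exact (measurable_of_countable (ψ v j)).comp (hm j)
  rw [lintegral_finsetSum]
  swap
  · intro v _
    exact Finset.measurable_fun_prod _ fun j _ => hmψ v j
  have hv : ∀ v ∈ V, ∫⁻ ω, ∏ j ∈ A ∪ B, ψ v j (r j ω) ∂μ ≤ (∏ a ∈ A, p a) * ∏ b ∈ B, (1 / ((H b : ℝ≥0∞) + 1)) := by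
    intro v hv
    have h1 := lintegral_prod_eq_prod_lintegral_of_indepFun (A ∪ B) (fun j ω => ψ v j (r j ω))
      (hind.comp (fun j => ψ v j) (fun j => measurable_of_countable _)) (fun j => hmψ v j)
    rw [h1, prod_union hAB]
    apply mul_le_mul'
    · apply prod_le_prod'
      intro a ha
      have haB : a ∉ B := Finset.disjoint_left.1 hAB ha
      simp only [hψ, if_neg haB]
      apply fac_int (H a) (r a) (hm a) (hu a) (fun k => φ a (ext v) k)
      apply hp a ha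
      intro b hb
      simp only [hext, dif_pos hb]
      rw [hV, mem_pi] at hv
      have := hv b hb
      rw [mem_range] at this
      omega
    · apply prod_le_prod'
      intro b hb
      simp only [hψ, if_pos hb]
      rw [ind_int (r b) (hm b)]
      apply le_of_eq
      apply hu
      simp only [hext, dif_pos hb]
      rw [hV, mem_pi] at hv
      have := hv b hb
      rw [mem_range] at this
      omega
  refine (sum_le_sum hv).trans ?_
  rw [sum_const, nsmul_eq_mul]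
  have hc : (V.card : ℝ≥0∞) = ∏ b ∈ B, ((H b : ℝ≥0∞) + 1) := by
    rw [hV, card_pi]
    push_cast
    simp
  have hc2 : (∏ b ∈ B, ((H b : ℝ≥0∞) + 1)) * ∏ b ∈ B, (1 / ((H b : ℝ≥0∞) + 1)) = 1 := by
    rw [← prod_mul_distrib]
    apply prod_eq_one
    intro b _
    rw [mul_one_div]
    apply ENNReal.div_self
    · simp
    · simp
  calc (V.card : ℝ≥0∞) * ((∏ a ∈ A, p a) * ∏ b ∈ B, (1 / ((H b : ℝ≥0∞) + 1)))
      = (∏ a ∈ A, p a) * ((∏ b ∈ B, ((H b : ℝ≥0∞) + 1)) * ∏ b ∈ B, (1 / ((H b : ℝ≥0∞) + 1))) := by rw [hc]; ring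
    _ = ∏ a ∈ A, p a := by rw [hc2, mul_one]
    _ ≤ _ := le_rfl

end Pool.Agent.L5helper11.RE
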