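import Mathlib
import Pool.Agent.L5helper11.RE.Prob2
import Pool.Agent.L5helper11.RE.Cnt

set_option autoImplicit false

/-! # One cell of edges: many successes with large probability -/

open MeasureTheory ProbabilityTheory Finset Filter
open scoped ENNReal

namespace Pool.Agent.L5helper11.RE

open Pool.Agent.R494.SPL (quad mem_quad)

variable {Ω : Type} [MeasurableSpace Ω]

/-- the edge `e` gives a prime -/
def suc (r : ℕ → Ω → ℕ) (τ : ℕ → ℕ → ℕ) (h : ℕ) (e : ℕ × ℕ) (ω : Ω) : Prop :=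
  (2 ^ e.1 + r e.1 ω + (2 ^ e.2 + τ e.2 (r e.2 ω)) + h).Prime

/-- the number theoretic input -/
def Inp (c : ℝ) (H : ℕ → ℕ) (n h : ℕ) : Prop :=
  ∀ a : ℕ, n ≤ 2 * a ^ 2 → h ≤ 2 ^ a ∧ ∀ I : Finset ℕ, (∀ s ∈ I, s < 2 ^ (a + 1)) →
      (I.card : ℝ) ≤ (a : ℝ) ^ (1 / 4 : ℝ) →
      (((range (H a + 1)).filter (fun k => ∀ s ∈ I, ¬ (2 ^ a + k + s + 1).Prime)).card : ℝ) ≤
        (H a + 1) * (1 - c * I.card / a)

theorem fail_count {c : ℝ} (H : ℕ → ℕ) (τ : ℕ → ℕ → ℕ)
    (hτ : ∀ b k, k ≤ H b → τ b k < 2 ^ b)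
    (n R g h : ℕ) (hR : 0 < R) (hRn : 2 * R ^ 8 ≤ n) (h1 : 1 ≤ h) (hs : Inp c H n h)
    (C : Finset (ℕ × ℕ)) (hC : ∀ e ∈ C, e ∈ edges n ∧ e.2 / R = g ∧ e.1 / R ≠ g)
    (a : ℕ) (ha : a ∈ C.image Prod.fst) (v : ℕ → ℕ) (hv : ∀ b ∈ C.image Prod.snd, v b ≤ H b) :
    (0 < a ∧ a ≤ Nat.sqrt (2 * n)) ∧
    (((range (H a + 1)).filter (fun k => ∀ e ∈ C, e.1 = a → ¬ (2 ^ a + k + (2 ^ e.2 + τ e.2 (v e.2)) + h).Prime)).card : ℝ) ≤
      (H a + 1) * (1 - c * (C.filter (fun e => e.1 = a)).card / a) := by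
  classical
  have hmem : ∀ e ∈ C, e.2 < e.1 ∧ e.1 ≤ Nat.sqrt (2 * n) ∧ n ≤ 2 * e.1 ^ 2 ∧ e.2 / R = g ∧ e.1 / R ≠ g := by
    intro e he
    obtain ⟨g0, g4, g5⟩ := hC e he
    obtain ⟨g1, g2, g3⟩ := edge_lt g0
    exact ⟨g1, g2, g3, g4, g5⟩
  rw [mem_image] at ha
  obtain ⟨e0, he0, he0a⟩ := ha
  obtain ⟨f1, f2, f3, f4, f5⟩ := hmem e0 he0
  rw [he0a] at f1 f2 f3 f5
  obtain ⟨k1, k2⟩ := hs a f3
  have ha0 : 0 < a := by omega
  refine ⟨⟨ha0, f2⟩, ?_⟩
  set I : Finset ℕ := (C.filter (fun e => e.1 = a)).image (fun e => 2 ^ e.2 + τ e.2 (v e.2) + (h - 1)) with hI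
  have hvb : ∀ e ∈ C, τ e.2 (v e.2) < 2 ^ e.2 := by
    intro e he
    exact hτ e.2 _ (hv e.2 (mem_image_of_mem _ he))
  have hIs : ∀ s ∈ I, s < 2 ^ (a + 1) := by
    intro s hs
    rw [hI, mem_image] at hs
    obtain ⟨e, he, rfl⟩ := hs
    rw [mem_filter] at he
    obtain ⟨he1, he2⟩ := he
    have g1 := hvb e he1
    have g2 := (hmem e he1).1
    rw [he2] at g2
    have g3 : 2 ^ (e.2 + 1) ≤ 2 ^ a := Nat.pow_le_pow_right (by norm_num) g2
    rw [pow_succ] at g3
    rw [pow_succ]
    omega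
  have hIc : I.card = (C.filter (fun e => e.1 = a)).card := by
    rw [hI]
    apply card_image_of_injOn
    intro e he e' he' hee
    rw [mem_coe, mem_filter] at he he'
    simp only at hee
    have g1 := pow_add_inj (hvb e he.1) (hvb e' he'.1) (by omega)
    exact Prod.ext (he.2.trans he'.2.symm) g1
  have hIR : I.card ≤ R := by
    rw [hIc]
    have g1 : (C.filter (fun e => e.1 = a)).card ≤ (Ico (g * R) (g * R + R)).card := by
      apply card_le_card_of_injOn Prod.snd
      · intro e he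
        rw [mem_coe, mem_filter] at he
        have g2 := (hmem e he.1).2.2.2.1
        rw [mem_coe, mem_Ico, ← g2]
        have h1 := Nat.div_add_mod e.2 R
        have h2 := Nat.mod_lt e.2 hR
        rw [mul_comm] at h1
        omega
      · intro e he e' he' hee
        rw [mem_coe, mem_filter] at he he'
        exact Prod.ext (he.2.trans he'.2.symm) hee
    rw [Nat.card_Ico] at g1
    omega
  have hR4 : (R : ℝ) ≤ (a : ℝ) ^ (1 / 4 : ℝ) := by
    have g1 : (R ^ 4) ^ 2 ≤ a ^ 2 := by
      have : (R ^ 4) ^ 2 = R ^ 8 := by ring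
      omega
    have g2 : R ^ 4 ≤ a := (Nat.pow_le_pow_iff_left (by norm_num)).1 g1
    have g3 : (R : ℝ) ^ 4 ≤ a := by exact_mod_cast g2
    calc (R : ℝ) = ((R : ℝ) ^ 4) ^ (1 / 4 : ℝ) := by
          rw [← Real.rpow_natCast, ← Real.rpow_mul (by positivity)]; norm_num
      _ ≤ _ := by gcongr
  have hIR' : (I.card : ℝ) ≤ (a : ℝ) ^ (1 / 4 : ℝ) := le_trans (by exact_mod_cast hIR) hR4
  have k3 := k2 I hIs hIR'
  have k4 : (range (H a + 1)).filter (fun k => ∀ e ∈ C, e.1 = a → ¬ (2 ^ a + k + (2 ^ e.2 + τ e.2 (v e.2)) + h).Prime) =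
      (range (H a + 1)).filter (fun k => ∀ s ∈ I, ¬ (2 ^ a + k + s + 1).Prime) := by
    apply filter_congr
    intro k _
    constructor
    · intro hk s hs
      rw [hI, mem_image] at hs
      obtain ⟨e, he, rfl⟩ := hs
      rw [mem_filter] at he
      have g1 := hk e he.1 he.2
      have g2 : 2 ^ a + k + (2 ^ e.2 + τ e.2 (v e.2) + (h - 1)) + 1 = 2 ^ a + k + (2 ^ e.2 + τ e.2 (v e.2)) + h := by omega
      rw [g2]
      exact g1
    · intro hk e he hea
      have g1 := hk (2 ^ e.2 + τ e.2 (v e.2) + (h - 1)) (by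
        rw [hI]
        exact mem_image_of_mem _ (mem_filter.2 ⟨he, hea⟩))
      have g2 : 2 ^ a + k + (2 ^ e.2 + τ e.2 (v e.2) + (h - 1)) + 1 = 2 ^ a + k + (2 ^ e.2 + τ e.2 (v e.2)) + h := by omega
      rw [g2] at g1
      exact g1
  rw [k4, ← hIc]
  exact k3

theorem cell_fail {μ : Measure Ω} [IsProbabilityMeasure μ] {c : ℝ} (hc : 0 < c) (H : ℕ → ℕ) (r : ℕ → Ω → ℕ)
    (τ : ℕ → ℕ → ℕ)
    (hm : ∀ j, Measurable (r j)) (hind : iIndepFun r μ)
    (hu : ∀ j k, k ≤ H j → μ (r j ⁻¹' {k}) = 1 / ((H j : ℝ≥0∞) + 1))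
    (hτ : ∀ b k, k ≤ H b → τ b k < 2 ^ b)
    (n R g h : ℕ) (hR : 0 < R) (hRn : 2 * R ^ 8 ≤ n) (h1 : 1 ≤ h) (hs : Inp c H n h)
    (C : Finset (ℕ × ℕ)) (hC : ∀ e ∈ C, e ∈ edges n ∧ e.2 / R = g ∧ e.1 / R ≠ g) :
    μ {ω | (({e | e ∈ C ∧ suc r τ h e ω} : Set (ℕ × ℕ)).ncard : ℝ) < c / 4 * C.card / Nat.sqrt (2 * n)} ≤
      ENNReal.ofReal (Real.exp (-(c / 4 * C.card / Nat.sqrt (2 * n)))) := by
  classical
  set M := Nat.sqrt (2 * n) with hM
  set m : ℝ := c / 4 * C.card / M with hmdef
  have hAB : Disjoint (C.image Prod.fst) (C.image Prod.snd) := by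
    rw [Finset.disjoint_left]
    intro j hj hj'
    rw [mem_image] at hj hj'
    obtain ⟨e, he, rfl⟩ := hj
    obtain ⟨e', he', h2⟩ := hj'
    have g1 := (hC e he).2.2
    have g2 := (hC e' he').2.1
    rw [h2] at g2
    exact g1 g2
  set A := C.image Prod.fst with hA
  set G : ℕ → (ℕ → ℕ) → ℕ → Prop := fun a v k => ∀ e, e ∈ C → e.1 = a → ¬ (2 ^ a + k + (2 ^ e.2 + τ e.2 (v e.2)) + h).Prime with hG
  set φ : ℕ → (ℕ → ℕ) → ℕ → ℝ≥0∞ := fun a v k => ENNReal.ofReal (if G a v k then 1 else 1 / 2) with hφ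
  set p : ℕ → ℝ≥0∞ := fun a => ENNReal.ofReal (Real.exp (-(c / 2 * (C.filter (fun e => e.1 = a)).card / M))) with hp
  have key := mgf_bound (μ := μ) H r hm hind hu A (C.image Prod.snd) hAB φ
    (by
      intro a _ v v' hv k
      have : G a v k ↔ G a v' k := by
        simp only [hG]
        constructor
        · intro hk e he hea
          rw [← hv e.2 (mem_image_of_mem _ he)]
          exact hk e he hea
        · intro hk e he hea
          rw [hv e.2 (mem_image_of_mem _ he)]
          exact hk e he hea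
      simp only [hφ, this]) p (by
      intro a ha v hv
      obtain ⟨⟨ha0, haM⟩, k3⟩ := fail_count H τ hτ n R g h hR hRn h1 hs C hC a ha v hv
      have e1 : ∑ k ∈ range (H a + 1), φ a v k =
          ENNReal.ofReal (∑ k ∈ range (H a + 1), (if G a v k then (1 : ℝ) else 1 / 2)) := by
        rw [ENNReal.ofReal_sum_of_nonneg]
        intro k _
        split_ifs <;> norm_num
      have e2 : ∑ k ∈ range (H a + 1), (if G a v k then (1 : ℝ) else 1 / 2) =
          (H a + 1) / 2 + ((range (H a + 1)).filter (fun k => G a v k)).card / 2 := by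
        have : ∀ k, (if G a v k then (1 : ℝ) else 1 / 2) = 1 / 2 + (if G a v k then (1 : ℝ) / 2 else 0) := by
          intro k
          split_ifs <;> norm_num
        simp only [this]
        rw [sum_add_distrib, sum_const, card_range, ← sum_filter, sum_const, nsmul_eq_mul, nsmul_eq_mul]
        push_cast
        ring
      have k5 : (1 : ℝ) - c / 2 * (C.filter (fun e => e.1 = a)).card / a ≤
          Real.exp (-(c / 2 * (C.filter (fun e => e.1 = a)).card / M)) := by
        have g1 : (a : ℝ) ≤ M := by exact_mod_cast haM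
        have g2 : (0 : ℝ) < a := by exact_mod_cast ha0
        have g3 : c / 2 * (C.filter (fun e => e.1 = a)).card / M ≤ c / 2 * (C.filter (fun e => e.1 = a)).card / a := by gcongr
        have g4 := Real.add_one_le_exp (-(c / 2 * ((C.filter (fun e => e.1 = a)).card : ℝ) / M))
        linarith
      have k6 : ∑ k ∈ range (H a + 1), (if G a v k then (1 : ℝ) else 1 / 2) ≤
          (H a + 1) * Real.exp (-(c / 2 * (C.filter (fun e => e.1 = a)).card / M)) := by
        rw [e2]
        have k7 : (((range (H a + 1)).filter (fun k => G a v k)).card : ℝ) ≤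
            (H a + 1) * (1 - c * (C.filter (fun e => e.1 = a)).card / a) := k3
        have k8 : ((H a : ℝ) + 1) / 2 + ((range (H a + 1)).filter (fun k => G a v k)).card / 2 ≤
            (H a + 1) * (1 - c / 2 * (C.filter (fun e => e.1 = a)).card / a) := by
          have : ((H a : ℝ) + 1) * (1 - c / 2 * (C.filter (fun e => e.1 = a)).card / a) =
            (H a + 1) / 2 + (H a + 1) * (1 - c * (C.filter (fun e => e.1 = a)).card / a) / 2 := by ring
          rw [this]
          linarith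
        refine k8.trans ?_
        gcongr
      rw [e1]
      have k7 := ENNReal.ofReal_le_ofReal k6
      rw [ENNReal.ofReal_mul (by positivity), ENNReal.ofReal_add (by positivity) (by norm_num),
        ENNReal.ofReal_natCast, ENNReal.ofReal_one] at k7
      exact k7)
  have hfin : ∏ a ∈ A, p a = ENNReal.ofReal (Real.exp (-(2 * m))) := by
    rw [hp]
    rw [← ENNReal.ofReal_prod_of_nonneg (fun _ _ => (Real.exp_pos _).le), ← Real.exp_sum]
    congr 2
    rw [sum_neg_distrib, ← sum_div, ← mul_sum, hmdef]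
    have := card_eq_sum_card_image Prod.fst C
    rw [this]
    push_cast
    ring
  rw [hfin] at key
  set X : Ω → ℝ≥0∞ := fun ω => ∏ a ∈ A, φ a (fun j => r j ω) (r a ω) with hX
  have hXm : Measurable X := by
    apply Finset.measurable_fun_prod
    intro a _
    apply ENNReal.measurable_ofReal.comp
    apply Measurable.ite _ measurable_const measurable_const
    have : Measurable (fun ω => G a (fun j => r j ω) (r a ω)) := by
      simp only [hG]
      apply Measurable.forall
      intro e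
      apply Measurable.imp measurable_const
      apply Measurable.imp measurable_const
      apply Measurable.not
      apply (measurable_of_countable Nat.Prime).comp
      exact ((measurable_const.add (hm a)).add (measurable_const.add
        ((measurable_of_countable (τ e.2)).comp (hm e.2)))).add measurable_const
    exact measurableSet_setOf.2 this
  have hsub : {ω | (({e | e ∈ C ∧ suc r τ h e ω} : Set (ℕ × ℕ)).ncard : ℝ) < m} ⊆
      {ω | ENNReal.ofReal (Real.exp (-m)) ≤ X ω} := by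
    intro ω hω
    show ENNReal.ofReal (Real.exp (-m)) ≤ X ω
    have hω : (({e | e ∈ C ∧ suc r τ h e ω} : Set (ℕ × ℕ)).ncard : ℝ) < m := hω
    have g0 : ({e | e ∈ C ∧ suc r τ h e ω} : Set (ℕ × ℕ)).ncard = (C.filter (fun e => suc r τ h e ω)).card := by
      rw [← Set.ncard_coe_finset]
      congr 1
      ext e
      simp
    rw [g0] at hω
    have g1 : X ω = ENNReal.ofReal ((1 / 2) ^ (A.filter (fun a => ¬ G a (fun j => r j ω) (r a ω))).card) := by
      rw [hX]
      simp only [hφ]
      rw [← ENNReal.ofReal_prod_of_nonneg (fun a _ => by split_ifs <;> norm_num)]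
      rw [prod_ite, prod_const_one, one_mul, prod_const]
    rw [g1]
    apply ENNReal.ofReal_le_ofReal
    have g2 : (A.filter (fun a => ¬ G a (fun j => r j ω) (r a ω))).card ≤ (C.filter (fun e => suc r τ h e ω)).card := by
      have g3 : A.filter (fun a => ¬ G a (fun j => r j ω) (r a ω)) ⊆ (C.filter (fun e => suc r τ h e ω)).image Prod.fst := by
        intro a ha
        rw [mem_filter] at ha
        obtain ⟨_, ha2⟩ := ha
        simp only [hG] at ha2
        push Not at ha2
        obtain ⟨e, he, hea, hpr⟩ := ha2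
        rw [mem_image]
        refine ⟨e, mem_filter.2 ⟨he, ?_⟩, hea⟩
        unfold suc
        rw [hea]
        exact hpr
      exact (card_le_card g3).trans card_image_le
    have g4 : ((A.filter (fun a => ¬ G a (fun j => r j ω) (r a ω))).card : ℝ) ≤ m := by
      have : ((A.filter (fun a => ¬ G a (fun j => r j ω) (r a ω))).card : ℝ) ≤ ((C.filter (fun e => suc r τ h e ω)).card : ℝ) := by
        exact_mod_cast g2
      linarith
    have g5 : Real.exp (-1) ≤ 1 / 2 := by
      rw [Real.exp_neg, one_div]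
      apply inv_anti₀ (by norm_num)
      have := Real.add_one_le_exp (1 : ℝ)
      linarith
    calc Real.exp (-m) ≤ Real.exp (-((A.filter (fun a => ¬ G a (fun j => r j ω) (r a ω))).card : ℝ)) := by
          apply Real.exp_le_exp.2
          linarith
      _ = Real.exp (-1) ^ (A.filter (fun a => ¬ G a (fun j => r j ω) (r a ω))).card := by
          rw [← Real.exp_nat_mul]
          congr 1
          ring
      _ ≤ _ := by
          apply pow_le_pow_left₀ (Real.exp_pos _).le g5
  refine (measure_mono hsub).trans ?_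
  refine (meas_ge_le_lintegral_div hXm.aemeasurable ?_ ENNReal.ofReal_ne_top).trans ?_
  · rw [ne_eq, ENNReal.ofReal_eq_zero, not_le]
    exact Real.exp_pos _
  · refine (ENNReal.div_le_div_right key _).trans ?_
    rw [← ENNReal.ofReal_div_of_pos (Real.exp_pos _)]
    apply le_of_eq
    congr 1
    rw [← Real.exp_sub]
    congr 1
    ring

end Pool.Agent.L5helper11.RE
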