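import Mathlib
import Pool.Agent.L5helper11.RE.Cnt

set_option autoImplicit false

/-! # The cells of the graph of pairs -/

open Finset Filter

namespace Pool.Agent.L5helper11.RE

open Pool.Agent.R494.SPL (quad mem_quad val2)

/-- the number of quadruples over a pair -/
def wt (n : ℕ) (e : ℕ × ℕ) : ℕ := ((quad n).filter (fun v => pr v = e)).card

/-- pairs of given weight in a given block -/
def cell (n R : ℕ) (x : ℕ × ℕ) : Finset (ℕ × ℕ) :=
  (edges n).filter (fun e => wt n e = x.1 ∧ e.2 / R = x.2 ∧ e.1 / R ≠ x.2)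

theorem fib_le {α β : Type} [DecidableEq α] [DecidableEq β] (s : Finset α) (t : Finset β) (f : α → β) :
    ∑ b ∈ t, (s.filter (fun a => f a = b)).card ≤ s.card := by
  rw [← card_biUnion]
  · apply card_le_card
    intro a ha
    rw [mem_biUnion] at ha
    obtain ⟨b, _, hb⟩ := ha
    exact (mem_filter.1 hb).1
  · intro b _ b' _ hbb
    rw [Function.onFun, Finset.disjoint_left]
    intro a ha ha'
    rw [mem_filter] at ha ha'
    exact hbb (ha.2.symm.trans ha'.2)

theorem same_card (M R : ℕ) (hR : 0 < R) :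
    (((range (M + 1)) ×ˢ (range (M + 1))).filter (fun e => e.1 / R = e.2 / R)).card ≤ (M + 1) * R := by
  have h1 : (((range (M + 1)) ×ˢ (range (M + 1))).filter (fun e => e.1 / R = e.2 / R)).card ≤
      ((range (M + 1)) ×ˢ (range R)).card := by
    apply card_le_card_of_injOn (fun e => (e.1, e.2 % R))
    · intro e he
      rw [mem_coe, mem_filter, mem_product, mem_range, mem_range] at he
      rw [mem_coe, mem_product, mem_range, mem_range]
      exact ⟨he.1.1, Nat.mod_lt _ hR⟩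
    · intro e he e' he' h
      rw [mem_coe, mem_filter] at he he'
      simp only [Prod.mk.injEq] at h
      obtain ⟨h1, h2⟩ := h
      have h3 : e.2 / R = e'.2 / R := by rw [← he.2, ← he'.2, h1]
      have h4 := Nat.div_add_mod e.2 R
      have h5 := Nat.div_add_mod e'.2 R
      rw [h3, h2, h5] at h4
      exact Prod.ext h1 h4.symm
  rw [card_product, card_range, card_range] at h1
  exact h1

/-- most quadruples lie over large cells -/
theorem cells_sum (n R D : ℕ) (T : ℝ) (hT : 0 ≤ T) (hR : 0 < R) (hD : ∀ e, wt n e ≤ D) (K : Finset (ℕ × ℕ))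
    (hK : K = ((range (D + 1)) ×ˢ (range (Nat.sqrt (2 * n) / R + 1))).filter (fun x => T ≤ ((cell n R x).card : ℝ))) :
    ((quad n).card : ℝ) ≤ ∑ x ∈ K, (x.1 : ℝ) * (cell n R x).card +
      (D + 1) * ((Nat.sqrt (2 * n) / R : ℕ) + 1) * (D * T) + (Nat.sqrt (2 * n) + 1) * R * D := by
  classical
  set M := Nat.sqrt (2 * n) with hM
  set E' := (edges n).filter (fun e => e.1 / R ≠ e.2 / R) with hE'
  set O := ((range (M + 1)) ×ˢ (range (M + 1))).filter (fun e => e.1 / R = e.2 / R) with hO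
  have hdef : ∀ e : ℕ × ℕ, ((quad n).filter (fun v => pr v = e)).card = wt n e := fun e => rfl
  have h1 : (quad n).card = ∑ e ∈ (quad n).image pr, wt n e := by
    rw [card_eq_sum_card_image pr (quad n)]
    rfl
  have h2 : (quad n).image pr ⊆ E' ∪ O := by
    intro e he
    rw [mem_image] at he
    obtain ⟨v, hv, rfl⟩ := he
    obtain ⟨g1, g2⟩ := pr_le hv
    have g3 : (pr v).2 ≤ (pr v).1 := by
      unfold pr
      exact min_le_max
    rw [mem_union]
    by_cases h : (pr v).1 / R = (pr v).2 / R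
    · right
      rw [hO, mem_filter, mem_product, mem_range, mem_range]
      exact ⟨⟨by omega, by omega⟩, h⟩
    · left
      rw [hE', mem_filter]
      refine ⟨?_, h⟩
      unfold edges
      apply mem_image_of_mem
      rw [mem_filter]
      refine ⟨hv, ?_⟩
      intro heq
      apply h
      unfold pr
      simp only
      rw [heq, max_self, min_self]
  have h3 : (quad n).card ≤ ∑ e ∈ E', wt n e + ((M + 1) * R) * D := by
    rw [h1]
    calc ∑ e ∈ (quad n).image pr, wt n e ≤ ∑ e ∈ E' ∪ O, wt n e := sum_le_sum_of_subset h2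
      _ ≤ ∑ e ∈ E', wt n e + ∑ e ∈ O, wt n e := by
          rw [← sum_union_inter]
          exact Nat.le_add_right _ _
      _ ≤ ∑ e ∈ E', wt n e + ((M + 1) * R) * D := by
          apply Nat.add_le_add_left
          calc ∑ e ∈ O, wt n e ≤ O.card * D := by
                rw [← smul_eq_mul]
                exact sum_le_card_nsmul _ _ _ fun e _ => hD e
            _ ≤ _ := Nat.mul_le_mul_right _ (same_card M R hR)
  set W := (range (D + 1)) ×ˢ (range (M / R + 1)) with hW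
  have h4 : ∑ e ∈ E', wt n e = ∑ x ∈ W, x.1 * (cell n R x).card := by
    rw [← sum_fiberwise_of_maps_to (s := E') (t := W) (g := fun e => (wt n e, e.2 / R))]
    · apply sum_congr rfl
      intro x _
      have h5 : E'.filter (fun e => (wt n e, e.2 / R) = x) = cell n R x := by
        unfold cell
        rw [hE', filter_filter]
        apply filter_congr
        intro e _
        rw [Prod.ext_iff]
        simp only
        constructor
        · rintro ⟨g1, g2, g3⟩
          exact ⟨g2, g3, by rw [← g3]; exact g1⟩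
        · rintro ⟨g1, g2, g3⟩
          exact ⟨by rw [g2]; exact g3, g1, g2⟩
      rw [h5]
      have h6 : ∀ e ∈ cell n R x, wt n e = x.1 := by
        intro e he
        unfold cell at he
        rw [mem_filter] at he
        exact he.2.1
      rw [sum_congr rfl h6, sum_const, smul_eq_mul, mul_comm]
    · intro e he
      rw [hE', mem_filter] at he
      rw [hW, mem_product, mem_range, mem_range]
      obtain ⟨g1, g2, g3⟩ := edge_lt he.1
      have g4 : e.2 / R ≤ M / R := Nat.div_le_div_right (g1.le.trans g2)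
      have g5 := hD e
      exact ⟨by omega, by omega⟩
  have h7 : (∑ x ∈ W, (x.1 : ℝ) * (cell n R x).card) ≤ ∑ x ∈ K, (x.1 : ℝ) * (cell n R x).card +
      (D + 1) * ((M / R : ℕ) + 1) * (D * T) := by
    rw [← sum_filter_add_sum_filter_not W (fun x => T ≤ ((cell n R x).card : ℝ))]
    rw [← hK]
    apply add_le_add_right
    calc ∑ x ∈ W with ¬ T ≤ ((cell n R x).card : ℝ), (x.1 : ℝ) * (cell n R x).card
        ≤ ∑ x ∈ W with ¬ T ≤ ((cell n R x).card : ℝ), D * T := by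
          apply sum_le_sum
          intro x hx
          rw [mem_filter, hW, mem_product, mem_range, mem_range] at hx
          have g1 : (x.1 : ℝ) ≤ D := by
            have : x.1 ≤ D := by omega
            exact_mod_cast this
          have g2 := (not_le.1 hx.2).le
          gcongr
      _ ≤ ∑ x ∈ W, D * T := by
          apply sum_le_sum_of_subset_of_nonneg (filter_subset _ _)
          intro _ _ _
          positivity
      _ = (D + 1) * ((M / R : ℕ) + 1) * (D * T) := by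
          rw [sum_const, hW, card_product, card_range, card_range, nsmul_eq_mul]
          push_cast
          ring
  have h8 : ((quad n).card : ℝ) ≤ (∑ x ∈ W, (x.1 : ℝ) * (cell n R x).card) + (M + 1) * R * D := by
    rw [h4] at h3
    exact_mod_cast h3
  linarith

/-- good quadruples lie over good edges -/
theorem suc_sum (n R : ℕ) (K : Finset (ℕ × ℕ)) (s : ℕ × ℕ → Prop) :
    ∑ x ∈ K, x.1 * ({e | e ∈ cell n R x ∧ s e} : Set (ℕ × ℕ)).ncard ≤ ({v | v ∈ quad n ∧ s (pr v)} : Set (ℕ × ℕ × ℕ × ℕ)).ncard := by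
  classical
  have g0 : ({v | v ∈ quad n ∧ s (pr v)} : Set (ℕ × ℕ × ℕ × ℕ)) = (((quad n).filter (fun v => s (pr v)) : Finset _) : Set _) := by
    ext v
    simp
  have g1 : ∀ x, ({e | e ∈ cell n R x ∧ s e} : Set (ℕ × ℕ)) = (((cell n R x).filter s : Finset _) : Set _) := by
    intro x
    ext v
    simp
  rw [g0, Set.ncard_coe_finset]
  simp only [g1, Set.ncard_coe_finset]
  refine le_trans ?_ (fib_le ((quad n).filter (fun v => s (pr v))) K (fun v => (wt n (pr v), (pr v).2 / R)))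
  apply sum_le_sum
  intro x _
  refine le_trans ?_ (fib_le (((quad n).filter (fun v => s (pr v))).filter (fun v => (wt n (pr v), (pr v).2 / R) = x))
    ((cell n R x).filter s) pr)
  have h1 : ∀ e ∈ (cell n R x).filter s, x.1 = ((((quad n).filter (fun v => s (pr v))).filter (fun v => (wt n (pr v), (pr v).2 / R) = x)).filter
      (fun v => pr v = e)).card := by
    intro e he
    rw [mem_filter] at he
    obtain ⟨he1, he2⟩ := he
    unfold cell at he1
    rw [mem_filter] at he1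
    obtain ⟨_, he3, he4, _⟩ := he1
    have h2 : (((quad n).filter (fun v => s (pr v))).filter (fun v => (wt n (pr v), (pr v).2 / R) = x)).filter
      (fun v => pr v = e) = (quad n).filter (fun v => pr v = e) := by
      rw [filter_filter, filter_filter]
      apply filter_congr
      intro v _
      constructor
      · rintro ⟨_, h⟩
        exact h.2
      · intro h
        refine ⟨by rw [h]; exact he2, ?_, h⟩
        rw [h, Prod.ext_iff]
        exact ⟨he3, he4⟩
    rw [h2]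
    exact he3.symm
  rw [← sum_congr rfl h1, sum_const, smul_eq_mul, mul_comm]

theorem quad_low : ∀ᶠ n : ℕ in atTop, Odd n → (n : ℝ) ^ (99 / 100 : ℝ) ≤ ((quad n).card : ℝ) := by
  obtain ⟨δ, hδ, n0, hS⟩ := Pool.Agent.TH696.FA.main_count (1 / 100) (by norm_num)
  filter_upwards [eventually_ge_atTop n0, eventually_ge_atTop 4] with n h3 h4 hn
  have hn1 : (1 : ℝ) ≤ n := by exact_mod_cast (by omega : 1 ≤ n)
  obtain ⟨S, hS1, hS2⟩ := hS n 1 h3 hn one_pos (by rw [Nat.cast_one]; exact Real.one_le_rpow hn1 hδ.le)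
  have hsub : S ⊆ quad n := by
    rintro ⟨x, y, z, w⟩ hX
    exact mem_quad.2 (hS2 x y z w hX).1
  have e1 : (99 / 100 : ℝ) = 1 - 1 / 100 := by norm_num
  rw [e1]
  refine hS1.trans ?_
  exact_mod_cast card_le_card hsub

/-- the parameters -/
theorem params : ∀ᶠ n : ℕ in atTop, Odd n → ∃ (R : ℕ) (K : Finset (ℕ × ℕ)), 0 < R ∧ 2 * R ^ 8 ≤ n ∧ K.card ≤ n ∧
    (∀ x ∈ K, (n : ℝ) ^ (51 / 100 : ℝ) ≤ ((cell n R x).card : ℝ)) ∧
    ((quad n).card : ℝ) ≤ 2 * ∑ x ∈ K, (x.1 : ℝ) * (cell n R x).card ∧ (Nat.sqrt (2 * n) : ℝ) ≤ 2 * (n : ℝ) ^ (1 / 2 : ℝ) := by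
  classical
  have e1 : ∀ᶠ n : ℕ in atTop, 100 ≤ (n : ℝ) ^ (1 / 100 : ℝ) :=
    ((tendsto_rpow_atTop (by norm_num)).comp tendsto_natCast_atTop_atTop).eventually_ge_atTop _
  filter_upwards [quad_low, few (1 / 100) (by norm_num), e1, eventually_ge_atTop 4] with n hQ hf h2 h4 hn
  have hn1 : (1 : ℝ) ≤ n := by exact_mod_cast (by omega : 1 ≤ n)
  have hn0 : (0 : ℝ) < n := by linarith
  have hQ := hQ hn
  have hmono : ∀ {s t : ℝ}, s ≤ t → (n : ℝ) ^ s ≤ (n : ℝ) ^ t := fun h => Real.rpow_le_rpow_of_exponent_le hn1 h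
  set R : ℕ := ⌊(n : ℝ) ^ (1 / 20 : ℝ)⌋₊ with hR
  set D : ℕ := ⌊(n : ℝ) ^ (1 / 100 : ℝ)⌋₊ with hD
  set M := Nat.sqrt (2 * n) with hM
  have h100 : 100 ≤ (n : ℝ) ^ (1 / 20 : ℝ) := h2.trans (hmono (by norm_num))
  have hR1 : (R : ℝ) ≤ (n : ℝ) ^ (1 / 20 : ℝ) := Nat.floor_le (by positivity)
  have hR2 : (n : ℝ) ^ (1 / 20 : ℝ) ≤ 2 * R := by
    have := Nat.lt_floor_add_one ((n : ℝ) ^ (1 / 20 : ℝ))
    rw [← hR] at this
    linarith
  have hR0 : 0 < R := by
    have : (0 : ℝ) < R := by linarith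
    exact_mod_cast this
  have hD1 : (D : ℝ) ≤ (n : ℝ) ^ (1 / 100 : ℝ) := Nat.floor_le (by positivity)
  have hD2 : (D : ℝ) + 1 ≤ 2 * (n : ℝ) ^ (1 / 100 : ℝ) := by linarith
  have hM1 : (M : ℝ) + 1 ≤ 3 * (n : ℝ) ^ (1 / 2 : ℝ) ∧ (M : ℝ) ≤ 2 * (n : ℝ) ^ (1 / 2 : ℝ) := by
    have g1 : (M : ℝ) ^ 2 ≤ 2 * n := by
      have : M ^ 2 ≤ 2 * n := Nat.sqrt_le' _
      exact_mod_cast this
    have g2 : ((n : ℝ) ^ (1 / 2 : ℝ)) ^ 2 = n := by
      rw [← Real.rpow_natCast, ← Real.rpow_mul hn0.le]; norm_num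
    have g3 : 1 ≤ (n : ℝ) ^ (1 / 2 : ℝ) := Real.one_le_rpow hn1 (by norm_num)
    have g4 : (M : ℝ) ≤ 2 * (n : ℝ) ^ (1 / 2 : ℝ) := by
      apply le_of_sq_le_sq _ (by positivity)
      nlinarith
    exact ⟨by linarith, g4⟩
  have hRn : (R : ℝ) ≤ (n : ℝ) ^ (1 / 2 : ℝ) := hR1.trans (hmono (by norm_num))
  have hG : ((M / R : ℕ) : ℝ) + 1 ≤ 6 * (n : ℝ) ^ (9 / 20 : ℝ) := by
    have k1 : ((M / R : ℕ) : ℝ) ≤ M / R := Nat.cast_div_le
    have k2 : (0 : ℝ) < R := by exact_mod_cast hR0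
    have k3 : (M : ℝ) / R + 1 ≤ 3 * (n : ℝ) ^ (1 / 2 : ℝ) / R := by
      rw [div_add_one k2.ne', div_le_div_iff_of_pos_right k2]
      linarith [hM1.2]
    have k4 : 3 * (n : ℝ) ^ (1 / 2 : ℝ) / R ≤ 6 * (n : ℝ) ^ (9 / 20 : ℝ) := by
      rw [div_le_iff₀ k2]
      have k5 : (n : ℝ) ^ (1 / 2 : ℝ) = (n : ℝ) ^ (9 / 20 : ℝ) * (n : ℝ) ^ (1 / 20 : ℝ) := by
        rw [← Real.rpow_add hn0]; norm_num
      rw [k5]
      have k6 : 0 < (n : ℝ) ^ (9 / 20 : ℝ) := by positivity
      nlinarith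
    linarith
  have hDw : ∀ e, wt n e ≤ D := by
    intro e
    apply Nat.le_floor
    refine le_trans ?_ (hf (2 ^ e.1 + 2 ^ e.2 + 1))
    unfold wt
    norm_cast
    apply card_le_card
    intro v hv
    rw [mem_filter] at hv ⊢
    refine ⟨hv.1, ?_⟩
    rw [pr_val, hv.2]
  set K := ((range (D + 1)) ×ˢ (range (M / R + 1))).filter (fun x => (n : ℝ) ^ (51 / 100 : ℝ) ≤ ((cell n R x).card : ℝ)) with hK
  have key := cells_sum n R D ((n : ℝ) ^ (51 / 100 : ℝ)) (by positivity) hR0 hDw K hK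
  refine ⟨R, K, hR0, ?_, ?_, ?_, ?_, hM1.2⟩
  · have g1 : (R : ℝ) ^ 8 ≤ (n : ℝ) ^ (1 / 2 : ℝ) := by
      calc (R : ℝ) ^ 8 ≤ ((n : ℝ) ^ (1 / 20 : ℝ)) ^ 8 := by gcongr
        _ = (n : ℝ) ^ (8 / 20 : ℝ) := by
            rw [← Real.rpow_natCast, ← Real.rpow_mul hn0.le]
            congr 1
            push_cast
            norm_num
        _ ≤ _ := hmono (by norm_num)
    have g2 : 2 ≤ (n : ℝ) ^ (1 / 2 : ℝ) := (by linarith [h2.trans (hmono (show (1 : ℝ) / 100 ≤ 1 / 2 by norm_num))])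
    have g3 : (n : ℝ) ^ (1 / 2 : ℝ) * (n : ℝ) ^ (1 / 2 : ℝ) = n := by
      rw [← Real.rpow_add hn0]; norm_num
    have g4 : (2 : ℝ) * (R : ℝ) ^ 8 ≤ n := by
      calc (2 : ℝ) * (R : ℝ) ^ 8 ≤ (n : ℝ) ^ (1 / 2 : ℝ) * (n : ℝ) ^ (1 / 2 : ℝ) := by gcongr
        _ = n := g3
    exact_mod_cast g4
  · have g1 : (K.card : ℝ) ≤ n := by
      calc (K.card : ℝ) ≤ (((range (D + 1)) ×ˢ (range (M / R + 1))).card : ℝ) := by
            exact_mod_cast card_filter_le _ _
        _ = (D + 1) * ((M / R : ℕ) + 1) := by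
            rw [card_product, card_range, card_range]
            push_cast
            rfl
        _ ≤ (2 * (n : ℝ) ^ (1 / 100 : ℝ)) * (6 * (n : ℝ) ^ (9 / 20 : ℝ)) := by gcongr
        _ = 12 * (n : ℝ) ^ (46 / 100 : ℝ) := by
            have : (n : ℝ) ^ (46 / 100 : ℝ) = (n : ℝ) ^ (1 / 100 : ℝ) * (n : ℝ) ^ (9 / 20 : ℝ) := by
              rw [← Real.rpow_add hn0]; norm_num
            rw [this]
            ring
        _ ≤ (n : ℝ) ^ (54 / 100 : ℝ) * (n : ℝ) ^ (46 / 100 : ℝ) := by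
            have := h2.trans (hmono (show (1 : ℝ) / 100 ≤ 54 / 100 by norm_num))
            gcongr
            linarith
        _ = n := by rw [← Real.rpow_add hn0]; norm_num
    exact_mod_cast g1
  · intro x hx
    rw [hK, mem_filter] at hx
    exact hx.2
  · have g1 : ((D : ℝ) + 1) * ((M / R : ℕ) + 1) * (D * (n : ℝ) ^ (51 / 100 : ℝ)) ≤ 12 * (n : ℝ) ^ (98 / 100 : ℝ) := by
      calc ((D : ℝ) + 1) * ((M / R : ℕ) + 1) * (D * (n : ℝ) ^ (51 / 100 : ℝ))
          ≤ (2 * (n : ℝ) ^ (1 / 100 : ℝ)) * (6 * (n : ℝ) ^ (9 / 20 : ℝ)) * ((n : ℝ) ^ (1 / 100 : ℝ) * (n : ℝ) ^ (51 / 100 : ℝ)) := by gcongr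
        _ = 12 * (n : ℝ) ^ (98 / 100 : ℝ) := by
            have : (n : ℝ) ^ (98 / 100 : ℝ) = (n : ℝ) ^ (1 / 100 : ℝ) * (n : ℝ) ^ (9 / 20 : ℝ) * ((n : ℝ) ^ (1 / 100 : ℝ) * (n : ℝ) ^ (51 / 100 : ℝ)) := by
              rw [← Real.rpow_add hn0, ← Real.rpow_add hn0, ← Real.rpow_add hn0]; norm_num
            rw [this]
            ring
    have g2 : ((M : ℝ) + 1) * R * D ≤ 3 * (n : ℝ) ^ (98 / 100 : ℝ) := by
      calc ((M : ℝ) + 1) * R * D ≤ (3 * (n : ℝ) ^ (1 / 2 : ℝ)) * (n : ℝ) ^ (1 / 20 : ℝ) * (n : ℝ) ^ (1 / 100 : ℝ) := by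
            gcongr
            exact hM1.1
        _ = 3 * (n : ℝ) ^ (56 / 100 : ℝ) := by
            have : (n : ℝ) ^ (56 / 100 : ℝ) = (n : ℝ) ^ (1 / 2 : ℝ) * (n : ℝ) ^ (1 / 20 : ℝ) * (n : ℝ) ^ (1 / 100 : ℝ) := by
              rw [← Real.rpow_add hn0, ← Real.rpow_add hn0]; norm_num
            rw [this]
            ring
        _ ≤ _ := by
            have := hmono (show (56 : ℝ) / 100 ≤ 98 / 100 by norm_num)
            linarith
    have g3 : 100 * (n : ℝ) ^ (98 / 100 : ℝ) ≤ (n : ℝ) ^ (99 / 100 : ℝ) := by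
      calc 100 * (n : ℝ) ^ (98 / 100 : ℝ) ≤ (n : ℝ) ^ (1 / 100 : ℝ) * (n : ℝ) ^ (98 / 100 : ℝ) := by gcongr
        _ = _ := by rw [← Real.rpow_add hn0]; norm_num
    have g4 : 0 < (n : ℝ) ^ (98 / 100 : ℝ) := by positivity
    linarith

end Pool.Agent.L5helper11.RE
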