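import Mathlib
import Pool.Agent.H357R2.SI.PairFinal
import Pool.Agent.H378R2.RM.Ev
import Pool.Agent.H295R3.Hoheisel

set_option autoImplicit false

/-! # Many shifts of a random short interval near `2 ^ a` contain primes -/

namespace Pool.Agent.L5helper11.RE

open Finset Filter
open Pool.Agent.H357R2.SI (sg one_le_sg pair_sieve)

/-- `σ_{-1}(h) ≤ ∏ (1 - 1/p)⁻¹` -/
theorem sg_le (h : ℕ) (hh : h ≠ 0) : sg h ≤ (∏ p ∈ h.primeFactors, (1 - 1 / (p : ℝ)))⁻¹ := by
  have e1 : sg h = (∑ d ∈ h.divisors, (d : ℝ)) / h := by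
    unfold sg
    rw [sum_div]
    rw [← Nat.sum_div_divisors h (fun d => 1 / (d : ℝ))]
    refine sum_congr rfl fun d hd => ?_
    have hdh := Nat.dvd_of_mem_divisors hd
    have hd0 : (d : ℝ) ≠ 0 := by
      have := Nat.pos_of_mem_divisors hd
      positivity
    rw [Nat.cast_div hdh hd0]
    field_simp
  have e2 : (∑ d ∈ h.divisors, (d : ℝ)) = ∏ p ∈ h.primeFactors, ∑ k ∈ range (h.factorization p + 1), (p : ℝ) ^ k := by
    have := Nat.sum_divisors hh
    rw [← Nat.cast_sum, this]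
    push_cast
    rfl
  have e3 : (h : ℝ) = ∏ p ∈ h.primeFactors, (p : ℝ) ^ h.factorization p := by
    conv_lhs => rw [← Nat.prod_factorization_pow_eq_self hh]
    rw [Finsupp.prod]
    push_cast
    rfl
  rw [e1, e2]
  conv_lhs => rw [e3]
  rw [← prod_div_distrib, ← prod_inv_distrib]
  apply Finset.prod_le_prod
  · intro p hp
    positivity
  intro p hp
  have hp2 : (2 : ℝ) ≤ p := by exact_mod_cast (Nat.prime_of_mem_primeFactors hp).two_le
  have hp0 : (0 : ℝ) < p := by linarith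
  set v := h.factorization p
  rw [geom_sum_eq (by linarith) (v + 1)]
  have e4 : (1 - 1 / (p : ℝ))⁻¹ = p / (p - 1) := by
    field_simp
  rw [e4, div_div, div_le_div_iff₀ (mul_pos (by linarith) (pow_pos hp0 v)) (by linarith)]
  have : (p : ℝ) ^ (v + 1) = p * p ^ v := by ring
  nlinarith [pow_pos hp0 v]

/-- the singular factor is small -/
theorem sg_small : ∀ᶠ a : ℕ in atTop, ∀ h : ℕ, 0 < h → h < 2 ^ (a + 2) → sg h ≤ (a : ℝ) ^ (1 / 16 : ℝ) := by
  obtain ⟨c, hc, D₀, hD⟩ := Pool.Agent.H378R2.RM.tot_low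
  have h1 : ∀ᶠ a : ℕ in atTop, Real.exp (max D₀ 10) ≤ (a : ℝ) ^ (1 / 16 : ℝ) :=
    ((tendsto_rpow_atTop (by norm_num)).comp tendsto_natCast_atTop_atTop).eventually_ge_atTop _
  have h2 : ∀ᶠ a : ℕ in atTop, Real.log (a : ℝ) ≤ (c / 2) * (a : ℝ) ^ (1 / 16 : ℝ) := by
    have := (isLittleO_log_rpow_atTop (show (0 : ℝ) < 1 / 16 by norm_num)).bound (show 0 < c / 2 by positivity)
    have h3 := tendsto_natCast_atTop_atTop.eventually this
    filter_upwards [h3] with a ha
    rw [Real.norm_eq_abs, Real.norm_eq_abs, abs_of_nonneg (show (0 : ℝ) ≤ (a : ℝ) ^ (1 / 16 : ℝ) by positivity)] at ha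
    exact (le_abs_self _).trans ha
  filter_upwards [h1, h2, eventually_ge_atTop 100] with a g1 g2 g3 h hh hlt
  have ha : (100 : ℝ) ≤ a := by exact_mod_cast g3
  by_cases hb : max D₀ 10 ≤ Real.log h
  · have k1 := hD h ((le_max_left _ _).trans hb)
    have k2 : (10 : ℝ) ≤ Real.log h := (le_max_right _ _).trans hb
    have k3 : Real.log h ≤ (a : ℝ) ^ 2 := by
      have : (h : ℝ) ≤ 2 ^ (a + 2) := by exact_mod_cast hlt.le
      have h4 : Real.log h ≤ Real.log (2 ^ (a + 2)) := Real.log_le_log (by exact_mod_cast hh) this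
      rw [Real.log_pow] at h4
      push_cast at h4
      have := Real.log_two_lt_d9
      nlinarith
    have k4 : 0 < Real.log (Real.log h) := Real.log_pos (by linarith)
    have k5 : Real.log (Real.log h) ≤ 2 * Real.log a := by
      calc Real.log (Real.log h) ≤ Real.log ((a : ℝ) ^ 2) := Real.log_le_log (by linarith) k3
        _ = 2 * Real.log a := by rw [Real.log_pow]; norm_num
    have k6 : 0 < c / Real.log (Real.log h) := by positivity
    calc sg h ≤ (∏ p ∈ h.primeFactors, (1 - 1 / (p : ℝ)))⁻¹ := sg_le h hh.ne'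
      _ ≤ (c / Real.log (Real.log h))⁻¹ := by
          apply inv_anti₀ k6 k1
      _ = Real.log (Real.log h) / c := by rw [inv_div]
      _ ≤ 2 * Real.log a / c := by gcongr
      _ ≤ 2 * ((c / 2) * (a : ℝ) ^ (1 / 16 : ℝ)) / c := by gcongr
      _ = _ := by field_simp
  · push Not at hb
    have k1 : (h : ℝ) ≤ Real.exp (max D₀ 10) := by
      rw [← Real.exp_log (show (0 : ℝ) < h by exact_mod_cast hh)]
      exact Real.exp_le_exp.2 hb.le
    refine le_trans ?_ (k1.trans g1)
    unfold sg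
    calc ∑ d ∈ h.divisors, 1 / (d : ℝ) ≤ ∑ d ∈ h.divisors, (1 : ℝ) := by
          apply sum_le_sum
          intro d hd
          have : (1 : ℝ) ≤ d := by exact_mod_cast Nat.pos_of_mem_divisors hd
          rw [div_le_one (by linarith)]
          exact this
      _ = h.divisors.card := by simp
      _ ≤ h := by exact_mod_cast Nat.card_divisors_le_self h

/-- Bonferroni -/
theorem bonf {α β : Type} [DecidableEq α] [DecidableEq β] (U : Finset α) (I : Finset β) (Q : β → α → Prop)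
    [∀ s, DecidablePred (Q s)] :
    (∑ s ∈ I, ((U.filter (Q s)).card : ℝ)) - ∑ st ∈ I.offDiag, ((U.filter (fun k => Q st.1 k ∧ Q st.2 k)).card : ℝ) ≤
      ((U.filter (fun k => ∃ s ∈ I, Q s k)).card : ℝ) := by
  classical
  have h1 : (∑ s ∈ I, ((U.filter (Q s)).card : ℝ)) = ∑ k ∈ U, ((I.filter (fun s => Q s k)).card : ℝ) := by
    simp only [card_filter]
    push_cast
    rw [sum_comm]
  have h2 : ∑ st ∈ I.offDiag, ((U.filter (fun k => Q st.1 k ∧ Q st.2 k)).card : ℝ) =
      ∑ k ∈ U, (((I.filter (fun s => Q s k)).offDiag.card : ℕ) : ℝ) := by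
    have e : ∀ k, (I.filter (fun s => Q s k)).offDiag = I.offDiag.filter (fun st => Q st.1 k ∧ Q st.2 k) := by
      intro k
      ext st
      simp only [mem_offDiag, mem_filter]
      tauto
    simp only [e, card_filter]
    push_cast
    rw [sum_comm]
  have h3 : ((U.filter (fun k => ∃ s ∈ I, Q s k)).card : ℝ) = ∑ k ∈ U, (if ∃ s ∈ I, Q s k then (1 : ℝ) else 0) := by
    rw [card_filter]; push_cast; rfl
  rw [h1, h2, h3, ← sum_sub_distrib]
  apply sum_le_sum
  intro k _
  rw [offDiag_card]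
  obtain ⟨m, hm⟩ : ∃ m, m = (I.filter (fun s => Q s k)).card := ⟨_, rfl⟩
  rw [← hm]
  split_ifs with hex
  · rcases Nat.lt_or_ge m 2 with h | h
    · interval_cases m
      · simp
      · simp
    · have : m * 2 ≤ m * m := Nat.mul_le_mul_left m h
      rw [Nat.cast_sub (by nlinarith)]
      push_cast
      have h5 : (2 : ℝ) ≤ m := by exact_mod_cast h
      nlinarith
  · have h0 : m = 0 := by
      rw [hm, card_eq_zero, filter_eq_empty_iff]
      intro s hs hq
      exact hex ⟨s, hs, hq⟩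
    rw [h0]; simp

/-- most shifts hit primes -/
theorem surv : ∃ c θ : ℝ, 0 < c ∧ 0 < θ ∧ θ < 1 ∧ ∀ᶠ a : ℕ in atTop, ∀ H : ℕ, (2 : ℝ) ^ (θ * a) ≤ H → H < 2 ^ a →
    ∀ I : Finset ℕ, (∀ s ∈ I, s < 2 ^ (a + 1)) → (I.card : ℝ) ≤ (a : ℝ) ^ (1 / 4 : ℝ) →
    (((range (H + 1)).filter (fun k => ∀ s ∈ I, ¬ (2 ^ a + k + s + 1).Prime)).card : ℝ) ≤
      (H + 1) * (1 - c * I.card / a) := by
  classical
  obtain ⟨δ, η, hδ, hδ1, hη, X₀, hX₀, hoh⟩ := Pool.Agent.H295R3.D.hoheisel
  obtain ⟨C, hC, u0, hps⟩ := pair_sieve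
  set θ : ℝ := 1 - δ / 2 with hθ
  refine ⟨η / 16, θ, by positivity, by rw [hθ]; linarith, by rw [hθ]; linarith, ?_⟩
  have e1 : ∀ᶠ a : ℕ in atTop, (X₀ : ℝ) ≤ (a : ℝ) := tendsto_natCast_atTop_atTop.eventually_ge_atTop _
  have e2 : ∀ᶠ a : ℕ in atTop, 4 / δ ≤ (a : ℝ) := tendsto_natCast_atTop_atTop.eventually_ge_atTop _
  have e3 : ∀ᶠ a : ℕ in atTop, (u0 : ℝ) ≤ (a : ℝ) / 4 := by
    have : ∀ᶠ a : ℕ in atTop, 4 * (u0 : ℝ) ≤ (a : ℝ) := tendsto_natCast_atTop_atTop.eventually_ge_atTop _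
    filter_upwards [this] with a ha
    linarith
  have e4 : ∀ᶠ a : ℕ in atTop, 256 * C / η ≤ (a : ℝ) ^ (1 / 2 : ℝ) :=
    ((tendsto_rpow_atTop (by norm_num)).comp tendsto_natCast_atTop_atTop).eventually_ge_atTop _
  filter_upwards [e1, e2, e3, e4, sg_small, eventually_ge_atTop 100] with a g1 g2 g3 g4 g5 g6 H hH1 hH2 I hI hIc
  have ha : (100 : ℝ) ≤ a := by exact_mod_cast g6
  have ha0 : (0 : ℝ) < a := by linarith
  have hln1 : (1 : ℝ) / 2 ≤ Real.log 2 := by have := Real.log_two_gt_d9; linarith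
  have hln2 : Real.log 2 ≤ 1 := by have := Real.log_two_lt_d9; linarith
  have hH0 : (0 : ℝ) < H := lt_of_lt_of_le (by positivity) hH1
  have hH0' : 0 < H := by exact_mod_cast hH0
  have ha2 : a < 2 ^ a := Nat.lt_two_pow_self
  -- the lower bound for one shift
  have low : ∀ s ∈ I, η * (H + 1) / (8 * a) ≤ (((range (H + 1)).filter (fun k => (2 ^ a + k + s + 1).Prime)).card : ℝ) := by
    intro s hs
    have hs2 := hI s hs
    set X : ℕ := 2 ^ a + s + 1 with hX
    have hXle : X ≤ 2 ^ (a + 2) := by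
      rw [hX, pow_succ, pow_succ]
      rw [pow_succ] at hs2
      have : 1 ≤ 2 ^ a := Nat.one_le_two_pow
      omega
    have k1 : X₀ ≤ X := by
      have : X₀ ≤ a := by exact_mod_cast g1
      omega
    have k2 : (X : ℝ) ^ (1 - δ) ≤ (H : ℝ) := by
      refine le_trans ?_ hH1
      calc (X : ℝ) ^ (1 - δ) ≤ ((2 : ℝ) ^ (a + 2)) ^ (1 - δ) := by
            apply Real.rpow_le_rpow (by positivity) (by exact_mod_cast hXle) (by linarith)
        _ = (2 : ℝ) ^ (((a : ℝ) + 2) * (1 - δ)) := by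
            rw [← Real.rpow_natCast, ← Real.rpow_mul (by norm_num)]
            push_cast; rfl
        _ ≤ (2 : ℝ) ^ (θ * a) := by
            apply Real.rpow_le_rpow_of_exponent_le (by norm_num)
            rw [div_le_iff₀ hδ] at g2
            rw [hθ]
            nlinarith
    have k3 : H ≤ X := by omega
    have k4 := hoh X H k1 k2 k3
    have k5 : Real.log X ≤ 2 * a := by
      have : Real.log X ≤ Real.log ((2 : ℝ) ^ (a + 2)) := by
        apply Real.log_le_log
        · have : 0 < X := by omega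
          exact_mod_cast this
        · exact_mod_cast hXle
      rw [Real.log_pow] at this
      push_cast at this
      nlinarith
    have k6 : 0 < Real.log X := by
      apply Real.log_pos
      have : 1 < X := by omega
      exact_mod_cast this
    have k7 : (((Ioc X (X + H)).filter Nat.Prime).card : ℝ) ≤
        (((range (H + 1)).filter (fun k => (2 ^ a + k + s + 1).Prime)).card : ℝ) := by
      norm_cast
      apply card_le_card_of_injOn (fun p => p - X)
      · intro p hp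
        rw [mem_coe, mem_filter, mem_Ioc] at hp
        rw [mem_coe, mem_filter, mem_range]
        simp only
        refine ⟨by omega, ?_⟩
        have : 2 ^ a + (p - X) + s + 1 = p := by omega
        rw [this]
        exact hp.2
      · intro p hp p' hp' h
        rw [mem_coe, mem_filter, mem_Ioc] at hp hp'
        simp only at h
        omega
    refine le_trans ?_ (k4.trans k7)
    have k8 : (H : ℝ) + 1 ≤ 2 * H := by
      have : (1 : ℝ) ≤ H := by exact_mod_cast hH0'
      linarith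
    rw [div_le_div_iff₀ (by positivity) k6]
    calc η * (H + 1) * Real.log X ≤ η * (2 * H) * (2 * a) := by gcongr
      _ ≤ η * H * (8 * a) := by nlinarith [mul_pos (mul_pos hη hH0) ha0]
  -- the upper bound for two shifts
  have up : ∀ st ∈ I.offDiag, (((range (H + 1)).filter (fun k => (2 ^ a + k + st.1 + 1).Prime ∧ (2 ^ a + k + st.2 + 1).Prime)).card : ℝ) ≤
      16 * C * (a : ℝ) ^ (1 / 8 : ℝ) * (H + 1) / a ^ 2 := by
    have main : ∀ s t : ℕ, s < t → t < 2 ^ (a + 1) → (((range (H + 1)).filter (fun k => (2 ^ a + k + s + 1).Prime ∧ (2 ^ a + k + t + 1).Prime)).card : ℝ) ≤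
      16 * C * (a : ℝ) ^ (1 / 8 : ℝ) * (H + 1) / a ^ 2 := by
      intro s t hst ht
      have k0 : u0 ≤ H + 1 := by
        have h1 : (a : ℝ) / 4 ≤ (2 : ℝ) ^ (θ * a) := by
          have h2 : (a : ℝ) / 4 ≤ θ * a := by rw [hθ]; nlinarith
          have h3 : θ * a ≤ (2 : ℝ) ^ (θ * a) := by
            have h4 := Real.add_one_le_exp (Real.log 2 * (θ * a) * 2)
            have h5 : (2 : ℝ) ^ (θ * a) = Real.exp (Real.log 2 * (θ * a)) := by
              rw [Real.rpow_def_of_pos (by norm_num)]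
            have h6 : 0 ≤ θ * a := by rw [hθ]; nlinarith
            have h7 := Real.add_one_le_exp (Real.log 2 * (θ * a))
            have h8 := Real.add_one_le_exp (Real.log 2 * (θ * a) / 2)
            have h9 : Real.exp (Real.log 2 * (θ * a)) = Real.exp (Real.log 2 * (θ * a) / 2) ^ 2 := by
              rw [← Real.exp_nat_mul]; ring_nf
            rw [h5, h9]
            have h10 : 0 ≤ Real.log 2 * (θ * a) / 2 := by positivity
            nlinarith [mul_nonneg h6 (sub_nonneg.2 hln1), sq_nonneg (Real.log 2 * (θ * a) / 2 - 1)]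
          linarith
        have : (u0 : ℝ) ≤ ((H + 1 : ℕ) : ℝ) := by push_cast; linarith
        exact_mod_cast this
      have k1 := hps (t - s) (2 ^ a + s) (H + 1) (by omega) k0
      have k2 : (((range (H + 1)).filter (fun k => (2 ^ a + k + s + 1).Prime ∧ (2 ^ a + k + t + 1).Prime)).card : ℝ) ≤
          (((Ioc (2 ^ a + s) (2 ^ a + s + (H + 1))).filter (fun n => n.Prime ∧ (n + (t - s)).Prime)).card : ℝ) := by
        norm_cast
        apply card_le_card_of_injOn (fun k => 2 ^ a + k + s + 1)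
        · intro k hk
          rw [mem_coe, mem_filter, mem_range] at hk
          rw [mem_coe, mem_filter, mem_Ioc]
          simp only
          refine ⟨⟨by omega, by omega⟩, hk.2.1, ?_⟩
          have : 2 ^ a + k + s + 1 + (t - s) = 2 ^ a + k + t + 1 := by omega
          rw [this]
          exact hk.2.2
        · intro k hk k' hk' h
          simp only at h
          omega
      have k3 : sg (t - s) ≤ (a : ℝ) ^ (1 / 16 : ℝ) := by
        apply g5 _ (by omega)
        have : 2 ^ (a + 1) ≤ 2 ^ (a + 2) := Nat.pow_le_pow_right (by norm_num) (by omega)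
        omega
      have k4 : (a : ℝ) / 4 ≤ Real.log ((H + 1 : ℕ) : ℝ) := by
        have h1 : Real.log ((2 : ℝ) ^ (θ * a)) ≤ Real.log ((H + 1 : ℕ) : ℝ) := by
          apply Real.log_le_log (by positivity)
          push_cast
          linarith
        rw [Real.log_rpow (by norm_num)] at h1
        have h2 : (1 : ℝ) / 2 ≤ θ := by rw [hθ]; linarith
        nlinarith [mul_nonneg (sub_nonneg.2 h2) (sub_nonneg.2 hln1)]
      have k5 : 0 ≤ sg (t - s) := le_trans zero_le_one (one_le_sg (by omega))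
      refine (k2.trans k1).trans ?_
      have k6 : sg (t - s) ^ 2 ≤ (a : ℝ) ^ (1 / 8 : ℝ) := by
        calc sg (t - s) ^ 2 ≤ ((a : ℝ) ^ (1 / 16 : ℝ)) ^ 2 := by gcongr
          _ = (a : ℝ) ^ (1 / 8 : ℝ) := by
              rw [← Real.rpow_natCast, ← Real.rpow_mul ha0.le]; norm_num
      have k7 : ((a : ℝ) / 4) ^ 2 ≤ Real.log ((H + 1 : ℕ) : ℝ) ^ 2 := by gcongr
      calc C * sg (t - s) ^ 2 * ((H + 1 : ℕ) : ℝ) / Real.log ((H + 1 : ℕ) : ℝ) ^ 2
          ≤ C * (a : ℝ) ^ (1 / 8 : ℝ) * ((H + 1 : ℕ) : ℝ) / ((a : ℝ) / 4) ^ 2 := by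
            gcongr
        _ = 16 * C * (a : ℝ) ^ (1 / 8 : ℝ) * (H + 1) / a ^ 2 := by
            push_cast
            field_simp
            ring
    rintro ⟨s, t⟩ hst
    rw [mem_offDiag] at hst
    obtain ⟨hs, ht, hne⟩ := hst
    simp only at hs ht hne ⊢
    rcases Nat.lt_or_gt_of_ne hne with h | h
    · exact main s t h (hI t ht)
    · have := main t s h (hI s hs)
      simpa only [and_comm] using this
  have hb := bonf (range (H + 1)) I (fun s k => (2 ^ a + k + s + 1).Prime)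
  have hc : (((range (H + 1)).filter (fun k => ∀ s ∈ I, ¬ (2 ^ a + k + s + 1).Prime)).card : ℝ) =
      (H + 1) - (((range (H + 1)).filter (fun k => ∃ s ∈ I, (2 ^ a + k + s + 1).Prime)).card : ℝ) := by
    have h1 := card_filter_add_card_filter_not (s := range (H + 1)) (fun k => ∃ s ∈ I, (2 ^ a + k + s + 1).Prime)
    rw [card_range] at h1
    have h2 : (range (H + 1)).filter (fun k => ¬ ∃ s ∈ I, (2 ^ a + k + s + 1).Prime) =
        (range (H + 1)).filter (fun k => ∀ s ∈ I, ¬ (2 ^ a + k + s + 1).Prime) := by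
      apply filter_congr
      intro k _
      push Not
      rfl
    rw [h2] at h1
    have h3 : (((range (H + 1)).filter (fun k => ∃ s ∈ I, (2 ^ a + k + s + 1).Prime)).card : ℝ) +
      (((range (H + 1)).filter (fun k => ∀ s ∈ I, ¬ (2 ^ a + k + s + 1).Prime)).card : ℝ) = H + 1 := by
      exact_mod_cast h1
    linarith
  rw [hc]
  have s1 : (I.card : ℝ) * (η * (H + 1) / (8 * a)) ≤ ∑ s ∈ I, (((range (H + 1)).filter (fun k => (2 ^ a + k + s + 1).Prime)).card : ℝ) := by
    rw [← nsmul_eq_mul]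
    exact card_nsmul_le_sum _ _ _ low
  have s2 : ∑ st ∈ I.offDiag, (((range (H + 1)).filter (fun k => (2 ^ a + k + st.1 + 1).Prime ∧ (2 ^ a + k + st.2 + 1).Prime)).card : ℝ) ≤
      (I.card : ℝ) * (η * (H + 1) / (16 * a)) := by
    refine (sum_le_card_nsmul _ _ _ up).trans ?_
    rw [nsmul_eq_mul]
    have h1 : (I.offDiag.card : ℝ) ≤ I.card * (a : ℝ) ^ (1 / 4 : ℝ) := by
      have : (I.offDiag.card : ℝ) ≤ I.card * I.card := by
        rw [offDiag_card]
        have : I.card * I.card - I.card ≤ I.card * I.card := Nat.sub_le _ _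
        exact_mod_cast this
      refine this.trans ?_
      gcongr
    have h2 : (a : ℝ) ^ (1 / 4 : ℝ) * (a : ℝ) ^ (1 / 8 : ℝ) ≤ (a : ℝ) ^ (1 / 2 : ℝ) := by
      rw [← Real.rpow_add ha0]
      apply Real.rpow_le_rpow_of_exponent_le (by linarith) (by norm_num)
    have h3 : (a : ℝ) ^ (1 / 2 : ℝ) * (a : ℝ) ^ (1 / 2 : ℝ) = a := by
      rw [← Real.rpow_add ha0]; norm_num
    have h4 : 256 * C * (a : ℝ) ^ (1 / 2 : ℝ) ≤ η * a := by
      rw [div_le_iff₀ hη] at g4
      have h5 : 0 ≤ (a : ℝ) ^ (1 / 2 : ℝ) := by positivity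
      calc 256 * C * (a : ℝ) ^ (1 / 2 : ℝ) ≤ ((a : ℝ) ^ (1 / 2 : ℝ) * η) * (a : ℝ) ^ (1 / 2 : ℝ) := by gcongr
        _ = η * ((a : ℝ) ^ (1 / 2 : ℝ) * (a : ℝ) ^ (1 / 2 : ℝ)) := by ring
        _ = η * a := by rw [h3]
    calc (I.offDiag.card : ℝ) * (16 * C * (a : ℝ) ^ (1 / 8 : ℝ) * (H + 1) / a ^ 2)
        ≤ (I.card * (a : ℝ) ^ (1 / 4 : ℝ)) * (16 * C * (a : ℝ) ^ (1 / 8 : ℝ) * (H + 1) / a ^ 2) := by gcongr
      _ = I.card * ((16 * C * ((a : ℝ) ^ (1 / 4 : ℝ) * (a : ℝ) ^ (1 / 8 : ℝ))) * (H + 1) / a ^ 2) := by ring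
      _ ≤ I.card * ((16 * C * (a : ℝ) ^ (1 / 2 : ℝ)) * (H + 1) / a ^ 2) := by gcongr
      _ ≤ I.card * ((η * a / 16) * (H + 1) / a ^ 2) := by
          gcongr
          linarith
      _ = I.card * (η * (H + 1) / (16 * a)) := by
          field_simp
  have s3 : (I.card : ℝ) * (η * (H + 1) / (8 * a)) - (I.card : ℝ) * (η * (H + 1) / (16 * a)) =
      (H + 1) * (η / 16 * I.card / a) := by
    field_simp
    ring
  nlinarith [hb, s1, s2, s3]

end Pool.Agent.L5helper11.RE
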