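import Mathlib
import Pool.Agent.L5helper11.RE.NT
import Pool.Agent.L5helper11.RE.Cell
import Pool.Agent.L5helper11.RE.Cells

set_option autoImplicit false

/-! # Four squares and randomly perturbed powers of two: the expected order of magnitude -/

open MeasureTheory ProbabilityTheory Finset Filter
open scoped ENNReal

namespace Pool.Agent.L5helper11.RE

open Pool.Agent.R494.SPL (quad mem_quad)

variable {Ω : Type} [MeasurableSpace Ω]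

/-- the bad event of `n` -/
def bad2 (c : ℝ) (r : ℕ → Ω → ℕ) (τ : ℕ → ℕ → ℕ) (n : ℕ) : Set Ω := {ω | Odd n ∧ ∃ h, 1 ≤ h ∧ h ≤ n ∧
    ¬ c / 16 * (quad n).card / (n : ℝ) ^ (1 / 2 : ℝ) ≤ (({v | v ∈ quad n ∧ suc r τ h (pr v) ω} : Set (ℕ × ℕ × ℕ × ℕ)).ncard : ℝ)}

/-- the event that the cell `x` fails -/
def fl2 (c : ℝ) (r : ℕ → Ω → ℕ) (τ : ℕ → ℕ → ℕ) (n R h : ℕ) (x : ℕ × ℕ) : Set Ω :=
  {ω | (({e | e ∈ cell n R x ∧ suc r τ h e ω} : Set (ℕ × ℕ)).ncard : ℝ) < c / 4 * (cell n R x).card / Nat.sqrt (2 * n)}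

theorem two_sq2 : ∀ᶠ a : ℕ in atTop, 2 * a ^ 2 ≤ 2 ^ a := by
  filter_upwards [eventually_ge_atTop 7] with a ha
  induction a, ha using Nat.le_induction with
  | base => norm_num
  | succ k hk ih =>
    rw [pow_succ 2 k]
    nlinarith

theorem log_small2 {c σ : ℝ} (hc : 0 < c) (hσ : 0 < σ) : ∀ᶠ n : ℕ in atTop, (4 : ℝ) * Real.log n ≤ c * (n : ℝ) ^ σ := by
  have := (isLittleO_log_rpow_atTop hσ).bound (show 0 < c / 4 by positivity)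
  have h3 := tendsto_natCast_atTop_atTop.eventually this
  filter_upwards [h3, eventually_ge_atTop 1] with n hn hn1
  have h5 : (0 : ℝ) ≤ (n : ℝ) ^ σ := by positivity
  rw [Real.norm_eq_abs, Real.norm_eq_abs, abs_of_nonneg h5] at hn
  have h4 := (le_abs_self _).trans hn
  linarith

omit [MeasurableSpace Ω] in
theorem bad2_sub {c : ℝ} (hc : 0 < c) (r : ℕ → Ω → ℕ) (τ : ℕ → ℕ → ℕ) (n R : ℕ) (hn : 0 < n) (K : Finset (ℕ × ℕ))
    (hQ : ((quad n).card : ℝ) ≤ 2 * ∑ x ∈ K, (x.1 : ℝ) * (cell n R x).card)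
    (hM : (Nat.sqrt (2 * n) : ℝ) ≤ 2 * (n : ℝ) ^ (1 / 2 : ℝ)) :
    bad2 c r τ n ⊆ ⋃ h ∈ Icc 1 n, ⋃ x ∈ K, fl2 c r τ n R h x := by
  classical
  rintro ω ⟨_, h, h1, h2, h3⟩
  rw [Set.mem_iUnion₂]
  refine ⟨h, mem_Icc.2 ⟨h1, h2⟩, ?_⟩
  by_contra hcon
  apply h3
  have g1 : ∀ x ∈ K, c / 4 * (cell n R x).card / Nat.sqrt (2 * n) ≤ (({e | e ∈ cell n R x ∧ suc r τ h e ω} : Set (ℕ × ℕ)).ncard : ℝ) := by
    intro x hx
    by_contra hc2
    apply hcon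
    rw [Set.mem_iUnion₂]
    exact ⟨x, hx, not_le.1 hc2⟩
  have g2 := suc_sum n R K (fun e => suc r τ h e ω)
  have g3 : ∑ x ∈ K, (x.1 : ℝ) * (({e | e ∈ cell n R x ∧ suc r τ h e ω} : Set (ℕ × ℕ)).ncard : ℝ) ≤
      (({v | v ∈ quad n ∧ suc r τ h (pr v) ω} : Set (ℕ × ℕ × ℕ × ℕ)).ncard : ℝ) := by
    exact_mod_cast g2
  refine le_trans ?_ g3
  have hM0 : (0 : ℝ) < (Nat.sqrt (2 * n) : ℝ) := by
    have : 0 < Nat.sqrt (2 * n) := Nat.sqrt_pos.2 (by omega)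
    exact_mod_cast this
  have hn0 : (0 : ℝ) < n := by exact_mod_cast hn
  calc c / 16 * (quad n).card / (n : ℝ) ^ (1 / 2 : ℝ)
      ≤ c / 16 * (2 * ∑ x ∈ K, (x.1 : ℝ) * (cell n R x).card) / ((Nat.sqrt (2 * n) : ℝ) / 2) := by
        have : (Nat.sqrt (2 * n) : ℝ) / 2 ≤ (n : ℝ) ^ (1 / 2 : ℝ) := by linarith
        gcongr
    _ = ∑ x ∈ K, (x.1 : ℝ) * (c / 4 * (cell n R x).card / Nat.sqrt (2 * n)) := by
        have e1 : ∀ x : ℕ × ℕ, (x.1 : ℝ) * (c / 4 * (cell n R x).card / Nat.sqrt (2 * n)) =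
            ((x.1 : ℝ) * (cell n R x).card) * (c / 4 / Nat.sqrt (2 * n)) := by
          intro x
          ring
        simp only [e1]
        rw [← sum_mul]
        field_simp
        ring
    _ ≤ _ := by
        apply sum_le_sum
        intro x hx
        exact mul_le_mul_of_nonneg_left (g1 x hx) (Nat.cast_nonneg _)

theorem bad2_small {μ : Measure Ω} [IsProbabilityMeasure μ] {c θ : ℝ} (hc : 0 < c)
    (hsv : ∀ᶠ a : ℕ in atTop, ∀ H : ℕ, (2 : ℝ) ^ (θ * a) ≤ H → H < 2 ^ a →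
      ∀ I : Finset ℕ, (∀ s ∈ I, s < 2 ^ (a + 1)) → (I.card : ℝ) ≤ (a : ℝ) ^ (1 / 4 : ℝ) →
      (((range (H + 1)).filter (fun k => ∀ s ∈ I, ¬ (2 ^ a + k + s + 1).Prime)).card : ℝ) ≤
        (H + 1) * (1 - c * I.card / a))
    (H : ℕ → ℕ) (r : ℕ → Ω → ℕ) (τ : ℕ → ℕ → ℕ)
    (hH : ∀ a, H a < 2 ^ a) (hHl : ∀ᶠ a : ℕ in atTop, (2 : ℝ) ^ (θ * a) ≤ H a)
    (hm : ∀ j, Measurable (r j)) (hind : iIndepFun r μ)
    (hu : ∀ j k, k ≤ H j → μ (r j ⁻¹' {k}) = 1 / ((H j : ℝ≥0∞) + 1))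
    (hτ : ∀ b k, k ≤ H b → τ b k < 2 ^ b) :
    ∀ᶠ n : ℕ in atTop, μ (bad2 c r τ n) ≤ ENNReal.ofReal (1 / (n : ℝ) ^ 2) := by
  classical
  obtain ⟨a0, ha0⟩ := eventually_atTop.1 (hsv.and (hHl.and two_sq2))
  filter_upwards [params, log_small2 (show 0 < c / 8 by positivity) (show (0 : ℝ) < 1 / 100 by norm_num),
    eventually_ge_atTop (2 * a0 ^ 2 + 4)] with n hn hlog hna
  by_cases hodd : Odd n
  swap
  · have : bad2 c r τ n = ∅ := by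
      apply Set.eq_empty_of_forall_notMem
      intro ω hω
      exact hodd hω.1
    rw [this, measure_empty]
    exact bot_le
  obtain ⟨R, K, hR0, hRn, hKn, hKc, hQ, hM⟩ := hn hodd
  have hn1 : (1 : ℝ) ≤ n := by exact_mod_cast (by omega : 1 ≤ n)
  have hn0 : (0 : ℝ) < n := by linarith
  have hM0 : 0 < Nat.sqrt (2 * n) := Nat.sqrt_pos.2 (by omega)
  have hfail : ∀ h : ℕ, 1 ≤ h → h ≤ n → ∀ x ∈ K, μ (fl2 c r τ n R h x) ≤ ENNReal.ofReal (1 / (n : ℝ) ^ 4) := by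
    intro h h1 h2 x hx
    have hinp : Inp c H n h := by
      intro a ha
      have ha1 : a0 ≤ a := by
        by_contra hcon
        push Not at hcon
        have : a ^ 2 ≤ a0 ^ 2 := Nat.pow_le_pow_left hcon.le 2
        omega
      obtain ⟨g1, g2, g3⟩ := ha0 a ha1
      exact ⟨by omega, fun I hI hIc => g1 (H a) g2 (hH a) I hI hIc⟩
    refine (cell_fail hc H r τ hm hind hu hτ n R x.2 h hR0 hRn h1 hinp (cell n R x) ?_).trans ?_
    · intro e he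
      unfold cell at he
      rw [mem_filter] at he
      exact ⟨he.1, he.2.2.1, he.2.2.2⟩
    · apply ENNReal.ofReal_le_ofReal
      have g1 := hKc x hx
      have hM0' : (0 : ℝ) < (Nat.sqrt (2 * n) : ℝ) := by exact_mod_cast hM0
      have g2 : c / 8 * (n : ℝ) ^ (1 / 100 : ℝ) ≤ c / 4 * ((cell n R x).card : ℝ) / (Nat.sqrt (2 * n) : ℝ) := by
        rw [le_div_iff₀ hM0']
        have e1 : (n : ℝ) ^ (51 / 100 : ℝ) = (n : ℝ) ^ (1 / 100 : ℝ) * (n : ℝ) ^ (1 / 2 : ℝ) := by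
          rw [← Real.rpow_add hn0]; norm_num
        calc c / 8 * (n : ℝ) ^ (1 / 100 : ℝ) * (Nat.sqrt (2 * n) : ℝ)
            ≤ c / 8 * (n : ℝ) ^ (1 / 100 : ℝ) * (2 * (n : ℝ) ^ (1 / 2 : ℝ)) := by gcongr
          _ = c / 4 * (n : ℝ) ^ (51 / 100 : ℝ) := by rw [e1]; ring
          _ ≤ _ := by gcongr
      have g3 : 1 / (n : ℝ) ^ 4 = Real.exp (-(4 * Real.log n)) := by
        rw [Real.exp_neg, one_div, show (4 : ℝ) * Real.log n = ((4 : ℕ) : ℝ) * Real.log n by norm_num,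
          Real.exp_nat_mul, Real.exp_log hn0]
      rw [g3]
      apply Real.exp_le_exp.2
      linarith
  refine (measure_mono (bad2_sub hc r τ n R (by omega) K hQ hM)).trans ?_
  refine (measure_biUnion_finset_le _ _).trans ?_
  have g1 : ∀ h ∈ Icc 1 n, μ (⋃ x ∈ K, fl2 c r τ n R h x) ≤ (n : ℝ≥0∞) * ENNReal.ofReal (1 / (n : ℝ) ^ 4) := by
    intro h hh
    rw [mem_Icc] at hh
    refine (measure_biUnion_finset_le _ _).trans ?_
    refine (sum_le_card_nsmul _ _ _ (hfail h hh.1 hh.2)).trans ?_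
    rw [nsmul_eq_mul]
    gcongr
  refine (sum_le_card_nsmul _ _ _ g1).trans ?_
  rw [nsmul_eq_mul, Nat.card_Icc, Nat.add_sub_cancel]
  rw [← ENNReal.ofReal_natCast, ← ENNReal.ofReal_mul (by positivity), ← ENNReal.ofReal_mul (by positivity)]
  apply ENNReal.ofReal_le_ofReal
  apply le_of_eq
  field_simp

/-- the general law -/
theorem law : ∃ θ c : ℝ, 0 < θ ∧ θ < 1 ∧ 0 < c ∧ ∀ H : ℕ → ℕ, (∀ a, H a < 2 ^ a) →
    (∀ᶠ a : ℕ in atTop, (2 : ℝ) ^ (θ * a) ≤ H a) →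
    ∀ τ : ℕ → ℕ → ℕ, (∀ b k, k ≤ H b → τ b k < 2 ^ b) →
    ∀ (Ω : Type) [MeasurableSpace Ω] (μ : Measure Ω) [IsProbabilityMeasure μ] (r : ℕ → Ω → ℕ),
    (∀ a, Measurable (r a)) → iIndepFun r μ → (∀ a k, k ≤ H a → μ (r a ⁻¹' {k}) = 1 / ((H a : ℝ≥0∞) + 1)) →
    ∀ᵐ ω ∂μ, ∀ᶠ n : ℕ in atTop, Odd n → ∀ h : ℕ, 1 ≤ h → h ≤ n →
      c * (quad n).card / (n : ℝ) ^ (1 / 2 : ℝ) ≤ (({v | v ∈ quad n ∧ suc r τ h (pr v) ω} : Set (ℕ × ℕ × ℕ × ℕ)).ncard : ℝ) := by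
  obtain ⟨c, θ, hc, hθ0, hθ1, hsv⟩ := surv
  refine ⟨θ, c / 16, hθ0, hθ1, by positivity, ?_⟩
  intro H hH hHl τ hτ Ω _ μ _ r hm hind hu
  have hsm := bad2_small hc hsv H r τ hH hHl hm hind hu hτ
  obtain ⟨n0, hn0⟩ := eventually_atTop.1 hsm
  have hsum : ∑' n, μ (bad2 c r τ (n + n0)) ≠ ∞ := by
    have h1 : ∑' n, μ (bad2 c r τ (n + n0)) ≤ ∑' n : ℕ, ENNReal.ofReal (1 / ((n + n0 : ℕ) : ℝ) ^ 2) := by
      apply ENNReal.tsum_le_tsum
      intro n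
      exact hn0 (n + n0) (by omega)
    refine ne_top_of_le_ne_top ?_ h1
    apply Summable.tsum_ofReal_ne_top
    exact (summable_nat_add_iff n0 (f := fun n : ℕ => 1 / ((n : ℕ) : ℝ) ^ 2)).2
      (Real.summable_one_div_nat_pow.2 (by norm_num))
  filter_upwards [ae_eventually_notMem hsum] with ω hω
  obtain ⟨N, hN⟩ := eventually_atTop.1 hω
  filter_upwards [eventually_ge_atTop (N + n0)] with n hn hodd h h1 h2
  by_contra hcon
  have h3 := hN (n - n0) (by omega)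
  rw [Nat.sub_add_cancel (by omega)] at h3
  exact h3 ⟨hodd, h, h1, h2, hcon⟩

end Pool.Agent.L5helper11.RE
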