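import Mathlib
import Pool.Agent.Helper601.BT
import Pool.Agent.L5helper11.RE.Cell

set_option autoImplicit false

/-! # The expected number of admissible quadruples -/

open MeasureTheory ProbabilityTheory Finset Filter
open scoped ENNReal

namespace Pool.Agent.L5helper11.RE

open Pool.Agent.R494.SPL (quad mem_quad)

variable {Ω : Type} [MeasurableSpace Ω]

theorem bt : ∃ C : ℝ, 0 < C ∧ ∀ θ : ℝ, 0 < θ → ∀ a H : ℕ, 0 < a → (2 : ℝ) ^ (θ * a) ≤ H →
    ∀ q : ℕ, (q = 1 ∨ q = 2) → ∀ X : ℕ,
    (((range (H + 1)).filter (fun k => (X + k * q).Prime)).card : ℝ) ≤ C / θ * (H + 1) / a := by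
  obtain ⟨C, hC, h⟩ := Pool.Agent.Helper601.brun_titchmarsh
  refine ⟨2 * C, by positivity, ?_⟩
  intro θ hθ a H ha hH q hq X
  have ha' : (0 : ℝ) < a := by exact_mod_cast ha
  have h1 : (1 : ℝ) < (2 : ℝ) ^ (θ * a) := Real.one_lt_rpow (by norm_num) (by positivity)
  have h2 : 1 < H := by
    have : (1 : ℝ) < H := lt_of_lt_of_le h1 hH
    exact_mod_cast this
  have h3 := h X q (H + 1) (by omega) (by
    rcases hq with rfl | rfl
    · exact Or.inl rfl
    · exact Or.inr Nat.prime_two)
  refine h3.trans ?_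
  have h4 : θ * a / 2 ≤ Real.log ((H + 1 : ℕ) : ℝ) := by
    have h5 : Real.log ((2 : ℝ) ^ (θ * a)) ≤ Real.log ((H + 1 : ℕ) : ℝ) := by
      apply Real.log_le_log (by positivity)
      push_cast
      linarith
    rw [Real.log_rpow (by norm_num)] at h5
    have h6 : (1 : ℝ) / 2 ≤ Real.log 2 := by have := Real.log_two_gt_d9; linarith
    have h7 : 0 < θ * a := by positivity
    nlinarith
  calc C * ((H + 1 : ℕ) : ℝ) / Real.log ((H + 1 : ℕ) : ℝ) ≤ C * ((H + 1 : ℕ) : ℝ) / (θ * a / 2) := by gcongr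
    _ = 2 * C / θ * (H + 1) / a := by
        push_cast
        field_simp

/-- one pair gives a prime with small probability -/
theorem edge_prob {μ : Measure Ω} [IsProbabilityMeasure μ] {B : ℝ} (H : ℕ → ℕ) (r : ℕ → Ω → ℕ)
    (hm : ∀ j, Measurable (r j)) (hind : iIndepFun r μ)
    (hu : ∀ j k, k ≤ H j → μ (r j ⁻¹' {k}) = 1 / ((H j : ℝ≥0∞) + 1))
    (κ : ℕ) (hκ : κ = 0 ∨ κ = 1) (h : ℕ) (e : ℕ × ℕ)
    (hb : ∀ q : ℕ, (q = 1 ∨ q = 2) → ∀ X : ℕ,
      (((range (H e.1 + 1)).filter (fun k => (X + k * q).Prime)).card : ℝ) ≤ (H e.1 + 1) * B) :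
    μ {ω | suc r (fun _ k => κ * k) h e ω} ≤ ENNReal.ofReal B := by
  classical
  obtain ⟨a, b⟩ := e
  simp only at hb
  set Bs : Finset ℕ := if b = a then ∅ else {b} with hBs
  have hAB : Disjoint ({a} : Finset ℕ) Bs := by
    rw [hBs]
    split_ifs with h1
    · exact disjoint_empty_right _
    · rw [disjoint_singleton]
      exact fun h2 => h1 h2.symm
  set φ : ℕ → (ℕ → ℕ) → ℕ → ℝ≥0∞ := fun a' v k =>
    if (2 ^ a + k + (2 ^ b + κ * (if b = a then k else v b)) + h).Prime then 1 else 0 with hφ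
  have key := mgf_bound (μ := μ) H r hm hind hu {a} Bs hAB φ
    (by
      intro a' _ v v' hv k
      simp only [hφ]
      by_cases hba : b = a
      · simp only [if_pos hba]
      · have : v b = v' b := hv b (by rw [hBs, if_neg hba]; exact mem_singleton_self b)
        simp only [if_neg hba, this]) (fun _ => ENNReal.ofReal B) (by
      intro a' ha' v _
      rw [mem_singleton] at ha'
      subst ha'
      have e1 : ∑ k ∈ range (H a' + 1), φ a' v k =
          (((range (H a' + 1)).filter (fun k => (2 ^ a' + k + (2 ^ b + κ * (if b = a' then k else v b)) + h).Prime)).card : ℝ≥0∞) := by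
        rw [← sum_boole]
      rw [e1]
      have e2 : (((range (H a' + 1)).filter (fun k => (2 ^ a' + k + (2 ^ b + κ * (if b = a' then k else v b)) + h).Prime)).card : ℝ) ≤
          (H a' + 1) * B := by
        by_cases hba : b = a'
        · have e3 := hb (1 + κ) (by omega) (2 ^ a' + 2 ^ b + h)
          have e4 : (fun k => (2 ^ a' + k + (2 ^ b + κ * (if b = a' then k else v b)) + h).Prime) =
              fun k => (2 ^ a' + 2 ^ b + h + k * (1 + κ)).Prime := by
            funext k
            rw [if_pos hba]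
            congr 1
            ring
          simp only [e4]
          exact e3
        · have e3 := hb 1 (Or.inl rfl) (2 ^ a' + 2 ^ b + κ * v b + h)
          have e4 : (fun k => (2 ^ a' + k + (2 ^ b + κ * (if b = a' then k else v b)) + h).Prime) =
              fun k => (2 ^ a' + 2 ^ b + κ * v b + h + k * 1).Prime := by
            funext k
            rw [if_neg hba]
            congr 1
            ring
          simp only [e4]
          exact e3
      have e5 := ENNReal.ofReal_le_ofReal e2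
      rw [ENNReal.ofReal_natCast, ENNReal.ofReal_mul (by positivity), ENNReal.ofReal_add (by positivity) (by norm_num),
        ENNReal.ofReal_natCast, ENNReal.ofReal_one] at e5
      exact e5)
  rw [prod_singleton] at key
  refine le_trans (le_of_eq ?_) key
  have hms : MeasurableSet {ω | suc r (fun _ k => κ * k) h (a, b) ω} := by
    unfold suc
    have : Measurable (fun ω => (2 ^ a + r a ω + (2 ^ b + κ * r b ω) + h).Prime) := by
      apply (measurable_of_countable Nat.Prime).comp
      exact ((measurable_const.add (hm a)).add (measurable_const.add ((hm b).const_mul κ))).add measurable_const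
    exact measurableSet_setOfPred.2 this
  rw [← lintegral_indicator_one hms]
  apply lintegral_congr
  intro ω
  rw [prod_singleton]
  simp only [hφ]
  by_cases hs : suc r (fun _ k => κ * k) h (a, b) ω
  · rw [Set.indicator_of_mem (s := {ω | suc r (fun _ k => κ * k) h (a, b) ω}) hs]
    unfold suc at hs
    simp only at hs
    rw [if_pos]
    · rfl
    · by_cases hba : b = a
      · rw [if_pos hba]
        rw [hba] at hs ⊢
        exact hs
      · rw [if_neg hba]
        exact hs
  · rw [Set.indicator_of_notMem (s := {ω | suc r (fun _ k => κ * k) h (a, b) ω}) hs]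
    unfold suc at hs
    simp only at hs
    rw [if_neg]
    by_cases hba : b = a
    · rw [if_pos hba]
      rw [hba] at hs ⊢
      exact hs
    · rw [if_neg hba]
      exact hs

theorem expect : ∃ C : ℝ, 0 < C ∧ ∀ θ : ℝ, 0 < θ → ∀ H : ℕ → ℕ,
    (∀ᶠ a : ℕ in atTop, (2 : ℝ) ^ (θ * a) ≤ H a) → ∀ κ : ℕ, (κ = 0 ∨ κ = 1) →
    ∀ (Ω : Type) [MeasurableSpace Ω] (μ : Measure Ω) [IsProbabilityMeasure μ] (r : ℕ → Ω → ℕ),
    (∀ a, Measurable (r a)) → iIndepFun r μ → (∀ a k, k ≤ H a → μ (r a ⁻¹' {k}) = 1 / ((H a : ℝ≥0∞) + 1)) →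
    ∀ᶠ n : ℕ in atTop, ∀ h : ℕ,
      ∫⁻ ω, (({v | v ∈ quad n ∧ suc r (fun _ k => κ * k) h (pr v) ω} : Set (ℕ × ℕ × ℕ × ℕ)).ncard : ℝ≥0∞) ∂μ ≤
        ENNReal.ofReal (C / θ * (quad n).card / (n : ℝ) ^ (1 / 2 : ℝ)) := by
  classical
  obtain ⟨C, hC, hbt⟩ := bt
  refine ⟨2 * C, by positivity, ?_⟩
  intro θ hθ H hH κ hκ Ω _ μ _ r hm hind hu
  obtain ⟨a0, ha0⟩ := eventually_atTop.1 hH
  filter_upwards [eventually_ge_atTop (2 * a0 ^ 2 + 4)] with n hn h
  have hn0 : (0 : ℝ) < n := by exact_mod_cast (by omega : 0 < n)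
  have hone : ∀ v ∈ quad n, μ {ω | suc r (fun _ k => κ * k) h (pr v) ω} ≤ ENNReal.ofReal (2 * C / θ / (n : ℝ) ^ (1 / 2 : ℝ)) := by
    intro v hv
    obtain ⟨g1, g2⟩ := pr_le hv
    set a := (pr v).1 with ha
    have ha1 : a0 ≤ a := by
      by_contra hcon
      push Not at hcon
      have : a ^ 2 ≤ a0 ^ 2 := Nat.pow_le_pow_left hcon.le 2
      omega
    have ha2 : 0 < a := by
      rcases Nat.eq_zero_or_pos a with h0 | h0
      · rw [h0] at g2
        omega
      · exact h0
    have ha3 : (0 : ℝ) < a := by exact_mod_cast ha2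
    have g3 : (n : ℝ) ^ (1 / 2 : ℝ) ≤ 2 * a := by
      apply le_of_sq_le_sq _ (by positivity)
      have e1 : ((n : ℝ) ^ (1 / 2 : ℝ)) ^ 2 = n := by
        rw [← Real.rpow_natCast, ← Real.rpow_mul hn0.le]; norm_num
      rw [e1]
      have e2 : (n : ℝ) ≤ 2 * a ^ 2 := by exact_mod_cast g2
      nlinarith
    refine (edge_prob (B := C / θ / a) H r hm hind hu κ hκ h (pr v) ?_).trans ?_
    · intro q hq X
      have := hbt θ hθ a (H a) ha2 (ha0 a ha1) q hq X
      refine this.trans (le_of_eq ?_)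
      ring
    · apply ENNReal.ofReal_le_ofReal
      rw [div_le_div_iff₀ ha3 (by positivity)]
      calc C / θ * (n : ℝ) ^ (1 / 2 : ℝ) ≤ C / θ * (2 * a) := by gcongr
        _ = 2 * C / θ * a := by ring
  have hms : ∀ v : ℕ × ℕ × ℕ × ℕ, MeasurableSet {ω | suc r (fun _ k => κ * k) h (pr v) ω} := by
    intro v
    unfold suc
    have : Measurable (fun ω => (2 ^ (pr v).1 + r (pr v).1 ω + (2 ^ (pr v).2 + κ * r (pr v).2 ω) + h).Prime) := by
      apply (measurable_of_countable Nat.Prime).comp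
      exact ((measurable_const.add (hm _)).add (measurable_const.add ((hm _).const_mul κ))).add measurable_const
    exact measurableSet_setOfPred.2 this
  have hint : ∀ ω, (({v | v ∈ quad n ∧ suc r (fun _ k => κ * k) h (pr v) ω} : Set (ℕ × ℕ × ℕ × ℕ)).ncard : ℝ≥0∞) =
      ∑ v ∈ quad n, {ω | suc r (fun _ k => κ * k) h (pr v) ω}.indicator (1 : Ω → ℝ≥0∞) ω := by
    intro ω
    have g0 : ({v | v ∈ quad n ∧ suc r (fun _ k => κ * k) h (pr v) ω} : Set (ℕ × ℕ × ℕ × ℕ)) =
        (((quad n).filter (fun v => suc r (fun _ k => κ * k) h (pr v) ω) : Finset _) : Set _) := by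
      ext v
      simp
    rw [g0, Set.ncard_coe_finset, ← sum_boole]
    apply sum_congr rfl
    intro v _
    by_cases hs : suc r (fun _ k => κ * k) h (pr v) ω
    · rw [if_pos hs, Set.indicator_of_mem (s := {ω | suc r (fun _ k => κ * k) h (pr v) ω}) hs]
      rfl
    · rw [if_neg hs, Set.indicator_of_notMem (s := {ω | suc r (fun _ k => κ * k) h (pr v) ω}) hs]
  simp only [hint]
  rw [lintegral_finsetSum]
  · calc ∑ v ∈ quad n, ∫⁻ ω, {ω | suc r (fun _ k => κ * k) h (pr v) ω}.indicator (1 : Ω → ℝ≥0∞) ω ∂μ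
        = ∑ v ∈ quad n, μ {ω | suc r (fun _ k => κ * k) h (pr v) ω} := by
          apply sum_congr rfl
          intro v _
          rw [lintegral_indicator_one (hms v)]
      _ ≤ (quad n).card • ENNReal.ofReal (2 * C / θ / (n : ℝ) ^ (1 / 2 : ℝ)) := sum_le_card_nsmul _ _ _ hone
      _ = ENNReal.ofReal (2 * C / θ * (quad n).card / (n : ℝ) ^ (1 / 2 : ℝ)) := by
          rw [nsmul_eq_mul, ← ENNReal.ofReal_natCast, ← ENNReal.ofReal_mul (by positivity)]
          congr 1
          ring
  · intro v _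
    exact measurable_one.indicator (hms v)

end Pool.Agent.L5helper11.RE
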